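import Pool.Agent.Lib.MP_f58a57_nt.LT.Defs
import Pool.Agent.Lib.MP_f58a57_nt.LT.D0
import Pool.Agent.Lib.MP_f58a57_nt.LT.P0
import Pool.Agent.Lib.MP_f58a57_nt.LT.B1
import Pool.Agent.Lib.MP_f58a57_nt.LT.C.D2b

/-!
# MP_f58a57_nt, large transcendence degree, part D (analysis): definitions
-/

open Complex Matrix

noncomputable section

namespace Pool.Agent.LT

variable {c : ℕ}

/-- the covering property of two pairs of numbers -/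
def COV2 (a0 b0 a1 b1 : ℂ) : Prop :=
  a0.im = 0 ∧ b0.im = 0 ∧ ∃ C : ℝ, 0 < C ∧ ∀ r k : ℝ, 0 < r → 0 < k → C ≤ r * k → C * r ≤ k → ∀ x y : ℝ, ∃ m n : ℤ,
    |x - (m * a0.re + n * b0.re)| ≤ r ∧ |y - (m * a1.im + n * b1.im)| ≤ k

/-- the lattice `d ℤ^n` as a homomorphism -/
def latHom {n : ℕ} (d : ℕ) : (Fin n → ℤ) →+ (Fin n → ℂ) where
  toFun := lat d
  map_zero' := by ext j; simp [lat]
  map_add' := by intro a b; ext j; simp [lat]; ring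

/-- the image of the lattice `d ℤ^N` under `ζ` -/
def Gam (d : ℕ) (ζ : VN c →ₗ[ℂ] Vc c) : AddSubgroup (Vc c) := (ζ.toAddMonoidHom.comp (latHom d)).range

theorem mem_Gam {d : ℕ} {ζ : VN c →ₗ[ℂ] Vc c} {γ : Vc c} : γ ∈ Gam d ζ ↔ ∃ a : Fin (2 * c + 1) → ℤ, ζ (lat d a) = γ := Iff.rfl

/-! ### real symmetric forms on complex spaces -/

/-- a real symmetric bilinear form -/
structure RB {V : Type} [AddCommGroup V] [Module ℂ V] (R : V → V → ℝ) : Prop where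
  symm : ∀ u v, R u v = R v u
  add : ∀ u u' v, R (u + u') v = R u v + R u' v
  smul : ∀ (t : ℝ) u v, R ((t : ℂ) • u) v = t * R u v

/-- the hermitian part -/
def Hf {V : Type} [AddCommGroup V] [Module ℂ V] (R : V → V → ℝ) (u v : V) : ℂ :=
  (((R u v + R (I • u) (I • v) : ℝ) : ℂ) + I * ((R u (I • v) - R (I • u) v : ℝ) : ℂ)) / 2

/-- the symmetric part -/
def Sf {V : Type} [AddCommGroup V] [Module ℂ V] (R : V → V → ℝ) (u v : V) : ℂ :=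
  (((R u v - R (I • u) (I • v) : ℝ) : ℂ) - I * ((R (I • u) v + R u (I • v) : ℝ) : ℂ)) / 2

/-- the complex linear form with real part `f` -/
def Cl {V : Type} [AddCommGroup V] [Module ℂ V] (f : V → ℝ) (u : V) : ℂ := (f u : ℂ) - I * (f (I • u) : ℂ)

/-! ### the form of the sections -/

/-- the constant `γ` -/
def gam0 (D : Dat c) : ℝ := 1 + 2 * ∑ j, ‖D.v0 j‖ ^ 2 / (D.z j).im

/-- the real symmetric form `R` of D.4 -/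
def Rf (D : Dat c) (b : VN c →ₗ[ℝ] (Fin (2 * c + 1) → ℝ)) (Y : VN c →ₗ[ℝ] ℝ) (u v : VN c) : ℝ :=
  ∑ j, (D.z j).im * (b u j * b v j) + Y u * ∑ j, (D.v0 j).re * b v j + Y v * ∑ j, (D.v0 j).re * b u j + gam0 D * (Y u * Y v)

/-- the real linear form `λ` of D.4 -/
def lamf (b : VN c →ₗ[ℝ] (Fin (2 * c + 1) → ℝ)) (l : Fin (2 * c + 1) → ℝ) (u : VN c) : ℝ := ∑ j, l j * b u j

/-- the quadratic polynomial `q(u) = -π S(u,u) - ℓ(u)` -/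
def qf (D : Dat c) (b : VN c →ₗ[ℝ] (Fin (2 * c + 1) → ℝ)) (Y : VN c →ₗ[ℝ] ℝ) (l : Fin (2 * c + 1) → ℝ) (u : VN c) : ℂ :=
  -(Real.pi : ℂ) * Sf (Rf D b Y) u u - Cl (lamf b l) u

/-- the coordinates `ζ` of the normal form: `ζ_i = ∑_{l ≤ i} r_{il} x_l`, `r_ii > 0` -/
structure Zt (P : Matrix (Fin (2 * c + 1)) (Fin (2 * c + 1)) ℂ) (x : Fin (c + 1) → Fin (2 * c + 1) → ℂ) (H : VN c → VN c → ℂ)
    (ζ : VN c →ₗ[ℂ] Vc c) (sec : Vc c →ₗ[ℂ] VN c) (r : Fin (c + 1) → Fin (c + 1) → ℂ) : Prop where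
  hsec : ∀ z, ζ (sec z) = z
  ker : ∀ u, ζ u = 0 ↔ P *ᵥ u = 0
  hh : ∀ u v, H u v = herm (ζ u) (ζ v)
  coord : ∀ i u, ζ u i = ∑ l, r i l * (x l ⬝ᵥ u)
  tri : ∀ i l, i < l → r i l = 0
  diag : ∀ i, 0 < (r i i).re ∧ (r i i).im = 0

/-- the normal form of the sections: everything the analysis needs -/
structure NF (D : Dat c) (b : VN c →ₗ[ℝ] (Fin (2 * c + 1) → ℝ)) (Y : VN c →ₗ[ℝ] ℝ) (l : Fin (2 * c + 1) → ℝ) (ζ : VN c →ₗ[ℂ] Vc c)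
    (sec : Vc c →ₗ[ℂ] VN c) (q : VN c → ℂ) (c3 C : ℝ) : Prop where
  dec : Dec D D.Lt b Y
  hsec : ∀ z, ζ (sec z) = z
  ker : ∀ u, ζ u = 0 ↔ D.Lt *ᵥ u = 0
  tow : Tow c (Gam D.d ζ)
  diff : Differentiable ℂ q
  qker : ∀ k, D.Lt *ᵥ k = 0 → ∀ u, q (u + k) = q u
  trans : ∀ a : Fin (2 * c + 1) → ℤ, ∃ κ : ℂ,
    κ.re = Real.pi * nsq (ζ (lat D.d a)) -
      (Real.pi * ∑ j, (D.z j).im * ((D.d : ℝ) * (a j : ℝ)) ^ 2 + ∑ j, l j * ((D.d : ℝ) * (a j : ℝ))) ∧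
    ∀ u, q (u + lat D.d a) = q u + 2 * Real.pi * I * (lat D.d a ⬝ᵥ (D.Lt *ᵥ u)) + 2 * Real.pi * herm (ζ u) (ζ (lat D.d a)) + κ
  c3ne : c3 ≠ 0
  im0 : ∀ (b' : Fin (2 * c + 1) → ℝ) (y : ℝ), (ζ (pt D.g b' y) 0).im = c3 * y
  C0 : 0 ≤ C
  bd : ∀ (b' : Fin (2 * c + 1) → ℝ) (y : ℝ), (∀ j, 0 ≤ b' j ∧ b' j ≤ D.d) →
    |(q (pt D.g b' y)).re - Real.pi * nsq (ζ (pt D.g b' y))| ≤ C * (1 + y ^ 2)

/-- the multiplier with a given linear form -/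
def MulL {n : ℕ} (d : ℕ) (z : Fin n → ℂ) (l : Fin n → ℝ) (C : (Fin n → ℤ) → ℂ) : Prop :=
  ∀ a : Fin n → ℤ, ‖C a‖ = Real.exp (Real.pi * ∑ j, (z j).im * ((d : ℝ) * (a j : ℝ)) ^ 2 + ∑ j, l j * ((d : ℝ) * (a j : ℝ)))

/-- the function `G(z) = F(sec z) exp(q(sec z))` -/
def Gf (sec : Vc c →ₗ[ℂ] VN c) (q : VN c → ℂ) (F : VN c → ℂ) (z : Vc c) : ℂ := F (sec z) * cexp (q (sec z))

end Pool.Agent.LT
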