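import Pool.Agent.Lib.MP_f58a57_nt.LT.DD.Defs

/-!
# MP_f58a57_nt, large transcendence degree, part D analysis (row lt-DD1): covering with a Pell unit

Proof. `Pell.exists_pos_of_not_isSquare` gives a unit `η = p + q √Δ > 1`, `p² - Δ q² = 1`, `η' = p - q √Δ = 1/η`.
(1) Covering radius: for all real `w w'` there are `m n` with `|w - (m + n √Δ)| ≤ ρ`, `|w' - (m - n √Δ)| ≤ ρ`, `ρ = (1 + √Δ)/2`
    (`m = round ((w + w')/2)`, `n = round ((w - w')/(2 √Δ))`).
(2) Multiplication by `η^t` (`t` natural) maps `X = m + n √Δ`, `X' = m - n √Δ` to `η^t X`, `η^(-t) X'` and is a bijection of the pairs; so if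
    `η^t r ≥ ρ` and `η^(-t) k ≥ ρ` the claim holds: apply (1) to `w = η^t x`, `w' = η^(-t) x'` and multiply the result by `η^(-t)`, that is by `(p - q √Δ)^t`.
(3) `t` := the least natural number with `η^t r ≥ ρ`.  `t = 0`: `k ≥ C r ≥ ρ` (take `C ≥ 1`).  `t ≥ 1`: `η^(t-1) r < ρ`, so `η^(-t) k > r k / (ρ η) ≥ ρ` if `C ≥ ρ² η`.
-/

open Complex Matrix

noncomputable section

namespace Pool.Agent.LT

/-- covering radius -/
private theorem DD1_cov {s : ℝ} (hs : 0 < s) (w w' : ℝ) : ∃ m n : ℤ,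
    |w - (m + n * s)| ≤ (1 + s) / 2 ∧ |w' - (m - n * s)| ≤ (1 + s) / 2 := by
  refine ⟨round ((w + w') / 2), round ((w - w') / (2 * s)), ?_, ?_⟩
  · have h1 := abs_sub_round ((w + w') / 2)
    have h2 := abs_sub_round ((w - w') / (2 * s))
    have e : w - (round ((w + w') / 2) + round ((w - w') / (2 * s)) * s) =
        ((w + w') / 2 - round ((w + w') / 2)) + s * ((w - w') / (2 * s) - round ((w - w') / (2 * s))) := by
      field_simp
      ring
    rw [e]
    refine (abs_add_le _ _).trans ?_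
    rw [abs_mul, abs_of_pos hs]
    have h3 := mul_le_mul_of_nonneg_left h2 hs.le
    linarith
  · have h1 := abs_sub_round ((w + w') / 2)
    have h2 := abs_sub_round ((w - w') / (2 * s))
    have e : w' - (round ((w + w') / 2) - round ((w - w') / (2 * s)) * s) =
        ((w + w') / 2 - round ((w + w') / 2)) - s * ((w - w') / (2 * s) - round ((w - w') / (2 * s))) := by
      field_simp
      ring
    rw [e]
    refine (abs_sub _ _).trans ?_
    rw [abs_mul, abs_of_pos hs]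
    have h3 := mul_le_mul_of_nonneg_left h2 hs.le
    linarith

/-- multiplication by the unit -/
private theorem DD1_mul {s D : ℝ} (hs : s ^ 2 = D) (p q : ℤ) (hD : ∃ d : ℤ, D = d) (t : ℕ) : ∀ m n : ℤ, ∃ m' n' : ℤ,
    ((m : ℝ) + n * s) * ((p : ℝ) - q * s) ^ t = m' + n' * s ∧ ((m : ℝ) - n * s) * ((p : ℝ) + q * s) ^ t = m' - n' * s := by
  obtain ⟨d, hd⟩ := hD
  induction t with
  | zero => exact fun m n => ⟨m, n, by simp, by simp⟩
  | succ t ih =>
    intro m n
    obtain ⟨m', n', h1, h2⟩ := ih m n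
    refine ⟨m' * p - d * n' * q, n' * p - m' * q, ?_, ?_⟩
    · rw [pow_succ, ← mul_assoc, h1]
      push_cast
      rw [← hd, ← hs]
      ring
    · rw [pow_succ, ← mul_assoc, h2]
      push_cast
      rw [← hd, ← hs]
      ring

theorem pell_cover (Δ : ℕ) (hΔ : ¬ IsSquare Δ) : ∃ C : ℝ, 0 < C ∧ ∀ r k : ℝ, 0 < r → 0 < k → C ≤ r * k → C * r ≤ k → ∀ x x' : ℝ, ∃ m n : ℤ,
    |x - (m + n * Real.sqrt Δ)| ≤ r ∧ |x' - (m - n * Real.sqrt Δ)| ≤ k := by
  have hΔ0 : 0 < Δ := by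
    rcases Nat.eq_zero_or_pos Δ with h | h
    · exact absurd (by rw [h]; exact IsSquare.zero) hΔ
    · exact h
  obtain ⟨s, hs⟩ : ∃ s : ℝ, s = Real.sqrt Δ := ⟨_, rfl⟩
  have hs0 : 0 < s := by
    rw [hs]
    exact Real.sqrt_pos.2 (by exact_mod_cast hΔ0)
  have hs2 : s ^ 2 = (Δ : ℝ) := by
    rw [hs]
    exact Real.sq_sqrt (by positivity)
  have hsq : ¬ IsSquare (Δ : ℤ) := by
    rw [Int.isSquare_natCast_iff]
    exact hΔ
  obtain ⟨a, ha1, ha2⟩ := Pell.Solution₁.exists_pos_of_not_isSquare (by exact_mod_cast hΔ0) hsq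
  obtain ⟨p, hp⟩ : ∃ p : ℤ, p = a.x := ⟨_, rfl⟩
  obtain ⟨q, hq⟩ : ∃ q : ℤ, q = a.y := ⟨_, rfl⟩
  have hprop : (p : ℝ) ^ 2 - Δ * (q : ℝ) ^ 2 = 1 := by
    have := a.prop
    rw [← hp, ← hq] at this
    exact_mod_cast this
  rw [← hp] at ha1
  rw [← hq] at ha2
  have hp1 : (1 : ℝ) < p := by exact_mod_cast ha1
  have hq1 : (0 : ℝ) < q := by exact_mod_cast ha2
  obtain ⟨η, hη⟩ : ∃ η : ℝ, η = p + q * s := ⟨_, rfl⟩
  obtain ⟨η', hη'⟩ : ∃ η' : ℝ, η' = p - q * s := ⟨_, rfl⟩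
  have hηη : η * η' = 1 := by
    rw [hη, hη']
    have : ((p : ℝ) + q * s) * (p - q * s) = (p : ℝ) ^ 2 - s ^ 2 * (q : ℝ) ^ 2 := by ring
    rw [this, hs2, hprop]
  have hη1 : 1 < η := by
    rw [hη]
    have := mul_pos hq1 hs0
    linarith
  have hη0 : 0 < η := by linarith
  have hη'0 : 0 < η' := by
    by_contra h
    have := mul_nonneg hη0.le (neg_nonneg.2 (not_lt.1 h))
    linarith
  obtain ⟨ρ, hρ⟩ : ∃ ρ : ℝ, ρ = (1 + s) / 2 := ⟨_, rfl⟩
  have hρ0 : 0 < ρ := by rw [hρ]; positivity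
  have hpow : ∀ t : ℕ, η ^ t * η' ^ t = 1 := by
    intro t
    rw [← mul_pow, hηη, one_pow]
  refine ⟨max 1 (ρ ^ 2 * η), lt_of_lt_of_le one_pos (le_max_left _ _), ?_⟩
  intro r k hr hk hC1 hC2 x x'
  -- the main step
  have main : ∀ t : ℕ, ρ ≤ η ^ t * r → ρ ≤ η' ^ t * k → ∃ m n : ℤ,
      |x - (m + n * s)| ≤ r ∧ |x' - (m - n * s)| ≤ k := by
    intro t h1 h2
    have hpt : 0 < η ^ t := pow_pos hη0 t
    have hpt' : 0 < η' ^ t := pow_pos hη'0 t
    obtain ⟨m, n, h3, h4⟩ := DD1_cov hs0 (η ^ t * x) (η' ^ t * x')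
    rw [← hρ] at h3 h4
    obtain ⟨m', n', h5, h6⟩ := DD1_mul hs2 p q ⟨Δ, by simp⟩ t m n
    rw [← hη'] at h5
    rw [← hη] at h6
    refine ⟨m', n', ?_, ?_⟩
    · have e : x - (m' + n' * s) = η' ^ t * (η ^ t * x - (m + n * s)) := by
        rw [← h5]
        have := hpow t
        linear_combination (-x) * this
      rw [e, abs_mul, abs_of_pos hpt']
      calc η' ^ t * |η ^ t * x - (m + n * s)| ≤ η' ^ t * (η ^ t * r) :=
            mul_le_mul_of_nonneg_left (h3.trans h1) hpt'.le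
        _ = r := by
            have := hpow t
            linear_combination r * this
    · have e : x' - (m' - n' * s) = η ^ t * (η' ^ t * x' - (m - n * s)) := by
        rw [← h6]
        have := hpow t
        linear_combination (-x') * this
      rw [e, abs_mul, abs_of_pos hpt]
      calc η ^ t * |η' ^ t * x' - (m - n * s)| ≤ η ^ t * (η' ^ t * k) :=
            mul_le_mul_of_nonneg_left (h4.trans h2) hpt.le
        _ = k := by
            have := hpow t
            linear_combination k * this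
  rw [← hs]
  -- the exponent
  have hex : ∃ t : ℕ, ρ ≤ η ^ t * r := by
    obtain ⟨t, ht⟩ := pow_unbounded_of_one_lt (ρ / r) hη1
    refine ⟨t, ?_⟩
    rw [div_lt_iff₀ hr] at ht
    exact ht.le
  classical
  obtain ⟨t, ht⟩ : ∃ t : ℕ, t = Nat.find hex := ⟨_, rfl⟩
  have ht1 : ρ ≤ η ^ t * r := by
    rw [ht]
    exact Nat.find_spec hex
  refine main t ht1 ?_
  rcases Nat.eq_zero_or_pos t with h0 | h0
  · rw [h0, pow_zero, one_mul] at ht1 ⊢
    have h1 : 1 * r ≤ max 1 (ρ ^ 2 * η) * r := mul_le_mul_of_nonneg_right (le_max_left _ _) hr.le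
    linarith
  · have h1 : ¬ ρ ≤ η ^ (t - 1) * r := by
      apply Nat.find_min hex
      omega
    rw [not_le] at h1
    have h2 : η ^ t * r < ρ * η := by
      have e : η ^ t = η ^ (t - 1) * η := by
        rw [← pow_succ]
        congr 1
        omega
      rw [e]
      calc η ^ (t - 1) * η * r = (η ^ (t - 1) * r) * η := by ring
        _ < ρ * η := mul_lt_mul_of_pos_right h1 hη0
    have hpt : 0 < η ^ t := pow_pos hη0 t
    have hpt' : 0 < η' ^ t := pow_pos hη'0 t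
    have h3 : ρ ^ 2 * η ≤ r * k := (le_max_right _ _).trans hC1
    -- ρ * (ρ η) ≤ r k = (η ^ t r) (η' ^ t k) < (ρ η) (η' ^ t k)
    have h4 : r * k = (η ^ t * r) * (η' ^ t * k) := by
      have := hpow t
      linear_combination (-(r * k)) * this
    have h5 : (η ^ t * r) * (η' ^ t * k) ≤ (ρ * η) * (η' ^ t * k) :=
      mul_le_mul_of_nonneg_right h2.le (mul_pos hpt' hk).le
    have h6 : (ρ * η) * ρ ≤ (ρ * η) * (η' ^ t * k) := by
      calc (ρ * η) * ρ = ρ ^ 2 * η := by ring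
        _ ≤ r * k := h3
        _ ≤ _ := by rw [h4]; exact h5
    exact le_of_mul_le_mul_left h6 (mul_pos hρ0 hη0)

end Pool.Agent.LT
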