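import Pool.Agent.Lib.MP_f58a57_nt.LT.DD.Defs

/-!
# MP_f58a57_nt, large transcendence degree, part D analysis (row lt-DD3): a tower from a flag of pairs

Proof by induction on `c` (all `Γ`). `c = 0`: `last` gives the nonzero real number. `c + 1`: `Γ₁ := {γ | Fin.cons 0 γ ∈ Γ}` (comap of the additive map
`γ ↦ Fin.cons 0 γ`). The hypotheses for `Γ₁`: a vector `a ∈ Γ` with `a 0 = 0` is `Fin.cons 0 (Fin.tail a)`. `COV` for the pair of the step `i = 0`.
-/

open Complex Matrix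

noncomputable section

namespace Pool.Agent.LT

/-- the additive map `γ ↦ Fin.cons 0 γ` -/
private def consHom (c : ℕ) : Vc c →+ Vc (c + 1) where
  toFun := fun γ => Fin.cons 0 γ
  map_zero' := by
    funext i
    refine Fin.cases ?_ (fun j => ?_) i <;> simp
  map_add' := by
    intro a b
    funext i
    refine Fin.cases ?_ (fun j => ?_) i <;> simp

theorem tow_of : ∀ (c : ℕ) (Γ : AddSubgroup (Vc c)),
    (∀ (i : ℕ) (hi : i + 1 < c + 1), ∃ a ∈ Γ, ∃ b ∈ Γ, (∀ l : Fin (c + 1), (l : ℕ) < i → a l = 0 ∧ b l = 0) ∧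
      COV2 (a ⟨i, by omega⟩) (b ⟨i, by omega⟩) (a ⟨i + 1, hi⟩) (b ⟨i + 1, hi⟩)) →
    (∃ a ∈ Γ, (∀ l : Fin (c + 1), (l : ℕ) < c → a l = 0) ∧ a (Fin.last c) ≠ 0 ∧ (a (Fin.last c)).im = 0) → Tow c Γ := by
  intro c
  induction c with
  | zero =>
    intro Γ _ hl
    obtain ⟨a, ha, _, h1, h2⟩ := hl
    exact ⟨a, ha, h1, h2⟩
  | succ c ih =>
    intro Γ hp hl
    have hcons : ∀ a : Vc (c + 1), a 0 = 0 → a ∈ Γ → Fin.tail a ∈ Γ.comap (consHom c) := by
      intro a h0 ha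
      rw [AddSubgroup.mem_comap]
      have : consHom c (Fin.tail a) = a := by
        show (Fin.cons 0 (Fin.tail a) : Vc (c + 1)) = a
        rw [← h0]
        exact Fin.cons_self_tail a
      rw [this]
      exact ha
    refine ⟨Γ.comap (consHom c), ih _ ?_ ?_, fun γ hγ => hγ, ?_⟩
    · intro i hi
      obtain ⟨a, ha, b, hb, hz, hcov⟩ := hp (i + 1) (by omega)
      have h0 := hz 0 (by simp)
      refine ⟨Fin.tail a, hcons a h0.1 ha, Fin.tail b, hcons b h0.2 hb, fun l hl => ?_, hcov⟩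
      exact hz l.succ (by simpa using hl)
    · obtain ⟨a, ha, hz, h1, h2⟩ := hl
      refine ⟨Fin.tail a, hcons a (hz 0 (by simp)) ha, fun l hl => ?_, h1, h2⟩
      exact hz l.succ (by simpa using hl)
    · obtain ⟨a, ha, b, hb, _, hcov⟩ := hp 0 (by omega)
      exact ⟨a, ha, b, hb, hcov⟩

end Pool.Agent.LT
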