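import Pool.Agent.Lib.MP_f58a57_nt.LT.DD.R2
import Pool.Agent.Lib.MP_f58a57_nt.LT.DD.R3

/-!
# MP_f58a57_nt, large transcendence degree, part D analysis (row lt-DD10): the tower of the sections

`tow_of` for `Γ = Gam D.d ζ`. For the step `i` take `a, b : Fin N → ℤ`, `q` of `FlagD.step` and the vectors `ζ (lat d a)`, `ζ (lat d b)`
(`lat d a = d • zv a`, `x l ⬝ᵥ lat d a = d (x l ⬝ᵥ zv a)`). By `coord`, `tri` and `x l ⬝ᵥ zv a = 0` for `l < i`: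
`ζ_m (lat d a) = 0` for `m < i`, `ζ_i (lat d a) = d r_ii q` (real, nonzero: `diag`), `ζ_i (lat d b) = d r_ii q √Δ`,
`ζ_{i+1} (lat d a) = d (r_{i+1,i+1} x_{i+1}(a) + r_{i+1,i} q)`, `ζ_{i+1} (lat d b) = d (r_{i+1,i+1} x_{i+1}(b) + r_{i+1,i} q √Δ)`, so
`ζ_{i+1}(lat d b) - √Δ ζ_{i+1}(lat d a) = d r_{i+1,i+1} (x_{i+1}(b) - √Δ x_{i+1}(a))` has nonzero imaginary part; `cov2_of` with `s = d r_ii.re q`.
Last step: `FlagD.last`.
-/

open Complex Matrix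

noncomputable section

namespace Pool.Agent.LT

variable {c : ℕ}

namespace R10_

theorem dot_lat {n : ℕ} (x : Fin n → ℂ) (d : ℕ) (a : Fin n → ℤ) : x ⬝ᵥ lat d a = (d : ℂ) * (x ⬝ᵥ zv a) := by
  unfold dotProduct lat zv
  rw [Finset.mul_sum]
  exact Finset.sum_congr rfl fun j _ => by ring

variable {P : Matrix (Fin (2 * c + 1)) (Fin (2 * c + 1)) ℂ} {x : Fin (c + 1) → Fin (2 * c + 1) → ℂ} {H : VN c → VN c → ℂ}
    {ζ : VN c →ₗ[ℂ] Vc c} {sec : Vc c →ₗ[ℂ] VN c} {r : Fin (c + 1) → Fin (c + 1) → ℂ}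

theorem zlt (hz : Zt P x H ζ sec r) {i : ℕ} {u : VN c} (hu : ∀ l : Fin (c + 1), (l : ℕ) < i → x l ⬝ᵥ u = 0) (m : Fin (c + 1)) (hm : (m : ℕ) < i) :
    ζ u m = 0 := by
  rw [hz.coord]
  refine Finset.sum_eq_zero fun l _ => ?_
  rcases lt_or_ge m l with h | h
  · rw [hz.tri m l h, zero_mul]
  · rw [hu l (lt_of_le_of_lt h hm), mul_zero]

theorem zeq (hz : Zt P x H ζ sec r) {i : Fin (c + 1)} {u : VN c} (hu : ∀ l : Fin (c + 1), (l : ℕ) < i → x l ⬝ᵥ u = 0) :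
    ζ u i = r i i * (x i ⬝ᵥ u) := by
  rw [hz.coord]
  refine Finset.sum_eq_single i (fun l _ hl => ?_) (fun h => absurd (Finset.mem_univ _) h)
  rcases lt_or_gt_of_ne hl with h | h
  · rw [hu l h, mul_zero]
  · rw [hz.tri i l h, zero_mul]

theorem zsucc (hz : Zt P x H ζ sec r) {i j : Fin (c + 1)} (hij : (j : ℕ) = i + 1) {u : VN c} (hu : ∀ l : Fin (c + 1), (l : ℕ) < i → x l ⬝ᵥ u = 0) :
    ζ u j = r j j * (x j ⬝ᵥ u) + r j i * (x i ⬝ᵥ u) := by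
  rw [hz.coord]
  have hne : j ≠ i := by
    intro h; rw [h] at hij; omega
  rw [← Finset.sum_subset (Finset.subset_univ ({j, i} : Finset (Fin (c + 1)))) (fun l _ hl => ?_), Finset.sum_pair hne]
  simp only [Finset.mem_insert, Finset.mem_singleton, not_or] at hl
  rcases lt_or_ge (l : ℕ) i with h | h
  · rw [hu l h, mul_zero]
  · have h1 : (l : ℕ) ≠ i := fun h' => hl.2 (Fin.ext h')
    have h2 : (l : ℕ) ≠ j := fun h' => hl.1 (Fin.ext h')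
    have h3 : j < l := by
      rw [Fin.lt_def]; omega
    rw [hz.tri j l h3, zero_mul]

theorem re_eq {w : ℂ} (h : w.im = 0) : w = (w.re : ℂ) := by
  apply Complex.ext <;> simp [h]

end R10_

open R10_

theorem tow_Gam (D : Dat c) {Δ : ℕ} (hΔ : ¬ IsSquare Δ) {x : Fin (c + 1) → Fin (2 * c + 1) → ℂ} (hx : FlagD Δ D.Lt x) {H : VN c → VN c → ℂ}
    {ζ : VN c →ₗ[ℂ] Vc c} {sec : Vc c →ₗ[ℂ] VN c} {r : Fin (c + 1) → Fin (c + 1) → ℂ} (hz : Zt D.Lt x H ζ sec r) : Tow c (Gam D.d ζ) := by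
  have hdne : (D.d : ℝ) ≠ 0 := by exact_mod_cast D.hd.ne'
  refine tow_of c _ (fun i hi => ?_) ?_
  · obtain ⟨a, b, q, hq, hl, ha, hb, him⟩ := hx.step i hi
    have hqne : (q : ℝ) ≠ 0 := by exact_mod_cast hq.ne'
    have hua : ∀ l : Fin (c + 1), (l : ℕ) < i → x l ⬝ᵥ lat D.d a = 0 := fun l h => by rw [dot_lat, (hl l h).1, mul_zero]
    have hub : ∀ l : Fin (c + 1), (l : ℕ) < i → x l ⬝ᵥ lat D.d b = 0 := fun l h => by rw [dot_lat, (hl l h).2, mul_zero]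
    refine ⟨ζ (lat D.d a), ⟨a, rfl⟩, ζ (lat D.d b), ⟨b, rfl⟩, fun l h => ⟨zlt hz hua l h, zlt hz hub l h⟩, ?_⟩
    set i0 : Fin (c + 1) := ⟨i, by omega⟩ with hi0
    set i1 : Fin (c + 1) := ⟨i + 1, hi⟩ with hi1
    have hr0 := re_eq (hz.diag i0).2
    have hr1 := re_eq (hz.diag i1).2
    have hp0 := (hz.diag i0).1
    have hp1 := (hz.diag i1).1
    have ea : ζ (lat D.d a) i0 = r i0 i0 * ((D.d : ℂ) * q) := by
      rw [zeq hz (i := i0) hua, dot_lat, ha]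
    have eb : ζ (lat D.d b) i0 = r i0 i0 * ((D.d : ℂ) * (q * ((Real.sqrt Δ : ℝ) : ℂ))) := by
      rw [zeq hz (i := i0) hub, dot_lat, hb]
    have ea1 : ζ (lat D.d a) i1 = r i1 i1 * ((D.d : ℂ) * (x i1 ⬝ᵥ zv a)) + r i1 i0 * ((D.d : ℂ) * q) := by
      rw [zsucc hz (i := i0) (j := i1) rfl hua, dot_lat, dot_lat, ha]
    have eb1 : ζ (lat D.d b) i1 = r i1 i1 * ((D.d : ℂ) * (x i1 ⬝ᵥ zv b)) + r i1 i0 * ((D.d : ℂ) * (q * ((Real.sqrt Δ : ℝ) : ℂ))) := by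
      rw [zsucc hz (i := i0) (j := i1) rfl hub, dot_lat, dot_lat, hb]
    refine cov2_of Δ hΔ ((r i0 i0).re * (D.d * q)) ?_ _ _ _ _ ?_ ?_ ?_
    · exact mul_ne_zero hp0.ne' (mul_ne_zero hdne hqne)
    · rw [ea, hr0]; push_cast; simp
    · rw [eb, hr0]; push_cast; simp; ring
    · have e : ζ (lat D.d b) i1 - ((Real.sqrt Δ : ℝ) : ℂ) * ζ (lat D.d a) i1 =
          (((r i1 i1).re * D.d : ℝ) : ℂ) * (x i1 ⬝ᵥ zv b - ((Real.sqrt Δ : ℝ) : ℂ) * (x i1 ⬝ᵥ zv a)) := by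
        rw [ea1, eb1]
        have : (((r i1 i1).re * D.d : ℝ) : ℂ) = r i1 i1 * D.d := by
          conv_rhs => rw [hr1]
          push_cast; rfl
        rw [this]; ring
      rw [e, Complex.im_ofReal_mul]
      exact mul_ne_zero (mul_ne_zero hp1.ne' hdne) him
  · obtain ⟨a, hl, hne, him⟩ := hx.last
    have hua : ∀ l : Fin (c + 1), (l : ℕ) < c → x l ⬝ᵥ lat D.d a = 0 := fun l h => by rw [dot_lat, hl l h, mul_zero]
    have hr0 := re_eq (hz.diag (Fin.last c)).2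
    have hp0 := (hz.diag (Fin.last c)).1
    have ea : ζ (lat D.d a) (Fin.last c) = r (Fin.last c) (Fin.last c) * ((D.d : ℂ) * (x (Fin.last c) ⬝ᵥ zv a)) := by
      rw [zeq hz (i := Fin.last c) (by simpa using hua), dot_lat]
    refine ⟨ζ (lat D.d a), ⟨a, rfl⟩, fun l h => zlt hz hua l h, ?_, ?_⟩
    · rw [ea]
      refine mul_ne_zero ?_ (mul_ne_zero (by exact_mod_cast D.hd.ne') hne)
      intro h0; rw [h0] at hp0; simp at hp0
    · rw [ea, hr0, re_eq him]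
      simp

/-- the imaginary part of the first coordinate.  `x_0` is real on real vectors, so `Im ζ_0 (b' + i y g) = y r_00 x_0(g)`; `x_0 (g) ≠ 0`: otherwise `x_0` is real on all
`pt g b' y`, hence (with `Dec`, `ker`) on `ℂ^N`, hence zero (`x_0 (I u) = I x_0 (u)`), contradicting `FlagD.li`. -/
theorem im_zeta (D : Dat c) {Δ : ℕ} {x : Fin (c + 1) → Fin (2 * c + 1) → ℂ} (hx : FlagD Δ D.Lt x) {H : VN c → VN c → ℂ}
    {ζ : VN c →ₗ[ℂ] Vc c} {sec : Vc c →ₗ[ℂ] VN c} {r : Fin (c + 1) → Fin (c + 1) → ℂ} (hz : Zt D.Lt x H ζ sec r)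
    {b : VN c →ₗ[ℝ] (Fin (2 * c + 1) → ℝ)} {Y : VN c →ₗ[ℝ] ℝ} (hd : Dec D D.Lt b Y) :
    ∃ c3 : ℝ, c3 ≠ 0 ∧ ∀ (b' : Fin (2 * c + 1) → ℝ) (y : ℝ), (ζ (pt D.g b' y) 0).im = c3 * y := by
  set G : ℝ := (x 0 ⬝ᵥ rv (fun j => (D.g j : ℝ))).re with hG
  have hGc : x 0 ⬝ᵥ rv (fun j => (D.g j : ℝ)) = (G : ℂ) := re_eq (hx.real0 _)
  have hpt : ∀ (b' : Fin (2 * c + 1) → ℝ) (y : ℝ), x 0 ⬝ᵥ pt D.g b' y = x 0 ⬝ᵥ rv b' + I * y * G := by
    intro b' y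
    have e : pt D.g b' y = rv b' + (I * y) • rv (fun j => (D.g j : ℝ)) := by
      funext j; simp [pt, rv]
    rw [e, dotProduct_add, dotProduct_smul, hGc, smul_eq_mul]
  have him : ∀ (b' : Fin (2 * c + 1) → ℝ) (y : ℝ), (x 0 ⬝ᵥ pt D.g b' y).im = y * G := by
    intro b' y
    rw [hpt, Complex.add_im, hx.real0]
    simp
  have hG0 : G ≠ 0 := by
    intro h0
    have hall : ∀ u : VN c, (x 0 ⬝ᵥ u).im = 0 := by
      intro u
      have hk := (hx.ker _).1 (hd.dec u) 0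
      rw [dotProduct_sub, sub_eq_zero] at hk
      rw [hk, him, h0, mul_zero]
    have hz0 : ∀ u : VN c, x 0 ⬝ᵥ u = 0 := by
      intro u
      have h1 := hall u
      have h2 := hall (I • u)
      rw [dotProduct_smul, smul_eq_mul] at h2
      simp at h2
      exact Complex.ext h2 h1
    have hx0 : x 0 = 0 := by
      funext j
      have := hz0 (Pi.single j 1)
      rw [dotProduct_single, mul_one] at this
      exact this
    exact hx.li.ne_zero 0 hx0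
  have hp0 := (hz.diag 0).1
  refine ⟨(r 0 0).re * G, mul_ne_zero hp0.ne' hG0, fun b' y => ?_⟩
  have e0 : ζ (pt D.g b' y) 0 = r 0 0 * (x 0 ⬝ᵥ pt D.g b' y) := zeq hz (i := 0) fun l h => absurd h (by simp)
  rw [e0, Complex.mul_im, (hz.diag 0).2, him]
  ring

end Pool.Agent.LT
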