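import Pool.Agent.Lib.MP_f58a57_nt.LT.DD.Defs

/-!
# MP_f58a57_nt, large transcendence degree, part D analysis (row lt-DD8): the real form `R`

`b`, `Y` are the coordinates `u = pt g (b u) (Y u) + k`, `P k = 0` (`P = D.Lt`). Uniqueness: `u - pt g b' y ∈ ker P` implies `b u = b'`, `Y u = y`
(apply `uniq` to the difference; `pt g` is real-linear in `(b', y)`). Note `Y (I • u)` is NOT related to `Y u`. `D.v0 = D.Lt *ᵥ D.gc`, `D.M` rational so
`Im (a ⬝ᵥ (D.Lt *ᵥ rv b')) = ∑ a_j (z_j).im b'_j` for real `a`, `b'`; `a ⬝ᵥ (D.Lt *ᵥ (I y g)) = I y (a ⬝ᵥ v0)` has imaginary part `y ∑ a_j (v0_j).re`.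
-/

open Complex Matrix

noncomputable section

namespace Pool.Agent.LT

variable {c : ℕ} {D : Dat c} {b : VN c →ₗ[ℝ] (Fin (2 * c + 1) → ℝ)} {Y : VN c →ₗ[ℝ] ℝ}

private theorem R8_pt_sub (g : Fin (2 * c + 1) → ℤ) (b1 b2 : Fin (2 * c + 1) → ℝ) (y1 y2 : ℝ) :
    pt g b1 y1 - pt g b2 y2 = pt g (b1 - b2) (y1 - y2) := by
  funext j
  simp only [pt, Pi.sub_apply]
  push_cast
  ring

private theorem R8_unique (h : Dec D D.Lt b Y) (b' : Fin (2 * c + 1) → ℝ) (y : ℝ) :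
    b (pt D.g b' y) = b' ∧ Y (pt D.g b' y) = y := by
  have h1 := h.dec (pt D.g b' y)
  rw [R8_pt_sub] at h1
  obtain ⟨h2, h3⟩ := h.uniq _ _ h1
  exact ⟨(sub_eq_zero.1 h2).symm, (sub_eq_zero.1 h3).symm⟩

theorem Dec.b_pt (h : Dec D D.Lt b Y) (b' : Fin (2 * c + 1) → ℝ) (y : ℝ) : b (pt D.g b' y) = b' :=
  (R8_unique h b' y).1

theorem Dec.Y_pt' (h : Dec D D.Lt b Y) (b' : Fin (2 * c + 1) → ℝ) (y : ℝ) : Y (pt D.g b' y) = y :=
  (R8_unique h b' y).2

theorem Dec.ker0 (h : Dec D D.Lt b Y) {k : VN c} (hk : D.Lt *ᵥ k = 0) : b k = 0 ∧ Y k = 0 := by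
  have h1 := h.dec k
  rw [Matrix.mulVec_sub, hk, zero_sub, neg_eq_zero] at h1
  exact h.uniq _ _ h1

theorem Dec.ker_of (h : Dec D D.Lt b Y) {k : VN c} (h1 : b k = 0) (h2 : Y k = 0) : D.Lt *ᵥ k = 0 := by
  have h3 := h.dec k
  rw [h1, h2] at h3
  have h4 : pt D.g (0 : Fin (2 * c + 1) → ℝ) 0 = 0 := by
    funext j
    simp [pt]
  rwa [h4, sub_zero] at h3

private theorem R8_rv (g : Fin (2 * c + 1) → ℤ) (a : Fin (2 * c + 1) → ℝ) : rv a = pt g a 0 := by
  funext j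
  simp [rv, pt]

theorem Dec.b_rv (h : Dec D D.Lt b Y) (a : Fin (2 * c + 1) → ℝ) : b (rv a) = a ∧ Y (rv a) = 0 := by
  rw [R8_rv D.g a]
  exact R8_unique h a 0

theorem Rf_RB : RB (Rf D b Y) := by
  have hs : ∀ (t : ℝ) (u : VN c), (t : ℂ) • u = t • u := by
    intro t u
    funext j
    simp
  refine ⟨?_, ?_, ?_⟩
  · intro u v
    unfold Rf
    have h1 : ∑ j, (D.z j).im * (b u j * b v j) = ∑ j, (D.z j).im * (b v j * b u j) :=
      Finset.sum_congr rfl fun j _ => by ring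
    rw [h1]
    ring
  · intro u u' v
    unfold Rf
    simp only [map_add, Pi.add_apply, mul_add, add_mul, Finset.sum_add_distrib]
    ring
  · intro t u v
    unfold Rf
    rw [hs]
    simp only [map_smul, Pi.smul_apply, smul_eq_mul]
    have h1 : ∑ j, (D.z j).im * (t * b u j * b v j) = t * ∑ j, (D.z j).im * (b u j * b v j) := by
      rw [Finset.mul_sum]
      exact Finset.sum_congr rfl fun j _ => by ring
    have h2 : ∑ j, (D.v0 j).re * (t * b u j) = t * ∑ j, (D.v0 j).re * b u j := by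
      rw [Finset.mul_sum]
      exact Finset.sum_congr rfl fun j _ => by ring
    rw [h1, h2]
    ring

theorem Rf_ker (h : Dec D D.Lt b Y) {k : VN c} (hk : D.Lt *ᵥ k = 0) (v : VN c) : Rf D b Y k v = 0 := by
  obtain ⟨h1, h2⟩ := h.ker0 hk
  unfold Rf
  rw [h1, h2]
  simp

/-- the key property of `R` -/
theorem Rf_real (h : Dec D D.Lt b Y) (u : VN c) (a : Fin (2 * c + 1) → ℝ) : Rf D b Y u (rv a) = (rv a ⬝ᵥ (D.Lt *ᵥ u)).im := by
  obtain ⟨h1, h2⟩ := h.b_rv a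
  have h3 : D.Lt *ᵥ u = D.Lt *ᵥ (pt D.g (b u) (Y u)) := by
    have h4 := h.dec u
    rw [Matrix.mulVec_sub, sub_eq_zero] at h4
    exact h4
  have h5 : pt D.g (b u) (Y u) = rv (b u) + (I * (Y u : ℂ)) • D.gc := by
    funext j
    simp [pt, rv, Dat.gc]
  rw [h3, h5, Matrix.mulVec_add, Matrix.mulVec_smul, dotProduct_add, dotProduct_smul]
  have h6 : D.Lt *ᵥ D.gc = D.v0 := rfl
  rw [h6]
  have h7 : (rv a ⬝ᵥ (D.Lt *ᵥ rv (b u))).im = ∑ j, (D.z j).im * (b u j * a j) := by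
    have h8 : D.Lt *ᵥ rv (b u) = (fun j => D.z j * (b u j : ℂ)) - (fun j => ((∑ l, (D.M j l : ℝ) * b u l : ℝ) : ℂ)) := by
      unfold Dat.Lt
      rw [Matrix.sub_mulVec]
      congr 1
      · funext j
        rw [Matrix.mulVec_diagonal]
        rfl
      · funext j
        simp only [Matrix.mulVec, dotProduct, Matrix.map_apply, rv]
        push_cast
        rfl
    rw [h8, dotProduct_sub]
    simp only [dotProduct, rv, Complex.sub_im, Complex.im_sum]
    have h9 : ∑ j, ((a j : ℂ) * ((∑ l, (D.M j l : ℝ) * b u l : ℝ) : ℂ)).im = 0 :=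
      Finset.sum_eq_zero fun j _ => by
        rw [← Complex.ofReal_mul]
        exact Complex.ofReal_im _
    rw [h9, sub_zero]
    refine Finset.sum_congr rfl fun j _ => ?_
    simp only [Complex.mul_im, Complex.ofReal_re, Complex.ofReal_im, Complex.mul_re]
    ring
  have h10 : ((I * (Y u : ℂ)) • (rv a ⬝ᵥ D.v0)).im = Y u * ∑ j, (D.v0 j).re * a j := by
    have h11 : (rv a ⬝ᵥ D.v0).re = ∑ j, (D.v0 j).re * a j := by
      simp only [dotProduct, rv, Complex.re_sum]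
      refine Finset.sum_congr rfl fun j _ => ?_
      simp only [Complex.mul_re, Complex.ofReal_re, Complex.ofReal_im]
      ring
    rw [smul_eq_mul, ← h11]
    simp only [Complex.mul_im, Complex.mul_re, Complex.I_re, Complex.I_im, Complex.ofReal_re, Complex.ofReal_im]
    ring
  rw [Complex.add_im, h7, h10]
  unfold Rf
  rw [h1, h2]
  simp

end Pool.Agent.LT
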