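import Pool.Agent.Lib.MP_f58a57_nt.LT.DD.R5
import Pool.Agent.Lib.MP_f58a57_nt.LT.DD.R8

/-!
# MP_f58a57_nt, large transcendence degree, part D analysis (row lt-DD11): the quadratic polynomial `q`

Write `R = Rf D b Y` (`Rf_RB`), `H = Hf R`, `S = Sf R`. `R k v = 0` for `k ∈ ker P` (`Rf_ker`; `I • k ∈ ker P` too), so `S k v = 0`, `Cl (lamf b l) k = 0`.
* differentiable: `S` is complex bilinear: expand in the standard basis, `S u u = ∑_{i,j} u_i u_j S(e_i,e_j)` (or `LinearMap.mk₂` and continuity in finite dimension);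
  `Cl (lamf b l)` is complex linear.
* trans: for the real vector `a' = lat d a` (`= rv (fun j => d * a j)`): `H u a' + S u a' = R u a' - i R (i u) a' = Im w - i Im (i w) = -i w`, `w = a' ⬝ᵥ (P *ᵥ u)` (`HS_add`, `Rf_real`),
  so `-2π S(u,a') = 2π H(u,a') + 2π i w`; `H u a' = herm (ζ u) (ζ a')`. `κ = -π S(a',a') - Cl λ a'`; `Re S(a',a') = Im (a' ⬝ᵥ P a') - H(a',a') = ∑ (z_j).im (d a_j)² - nsq (ζ a')`,
  `Re Cl λ a' = λ a' = ∑ l_j d a_j` (`Dec.b_rv`).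
* re: `Re q(u) = -π Re S(u,u) - λ(u)`, `Re S(u,u) + H(u,u) = R(u,u)`, `H(u,u) = nsq (ζ u)`.
-/

open Complex Matrix

noncomputable section

namespace Pool.Agent.LT

variable {c : ℕ} {D : Dat c} {b : VN c →ₗ[ℝ] (Fin (2 * c + 1) → ℝ)} {Y : VN c →ₗ[ℝ] ℝ}

private theorem R11_lam_add (l : Fin (2 * c + 1) → ℝ) (u v : VN c) : lamf b l (u + v) = lamf b l u + lamf b l v := by
  unfold lamf
  rw [map_add, ← Finset.sum_add_distrib]
  refine Finset.sum_congr rfl fun j _ => ?_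
  rw [Pi.add_apply]
  ring

private theorem R11_coe_smul (t : ℝ) (u : VN c) : (t : ℂ) • u = t • u := by
  funext j
  simp [Complex.real_smul]

private theorem R11_lam_smul (l : Fin (2 * c + 1) → ℝ) (t : ℝ) (u : VN c) : lamf b l ((t : ℂ) • u) = t * lamf b l u := by
  unfold lamf
  rw [R11_coe_smul, map_smul, Finset.mul_sum]
  refine Finset.sum_congr rfl fun j _ => ?_
  rw [Pi.smul_apply, smul_eq_mul]
  ring

private theorem R11_Cl_add (l : Fin (2 * c + 1) → ℝ) (u v : VN c) :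
    Cl (lamf b l) (u + v) = Cl (lamf b l) u + Cl (lamf b l) v := by
  unfold Cl
  rw [smul_add, R11_lam_add, R11_lam_add]
  push_cast
  ring

private theorem R11_Cl_smul (l : Fin (2 * c + 1) → ℝ) (t : ℂ) (u : VN c) :
    Cl (lamf b l) (t • u) = t * Cl (lamf b l) u := by
  have h1 : t • u = (t.re : ℂ) • u + (t.im : ℂ) • (I • u) := by
    rw [smul_smul, ← add_smul]
    congr 1
    exact (Complex.re_add_im t).symm
  have h2 : I • (t • u) = (t.re : ℂ) • (I • u) + ((-t.im : ℝ) : ℂ) • u := by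
    rw [smul_smul, smul_smul, ← add_smul]
    congr 1
    apply Complex.ext <;> simp
  have h3 : t = (t.re : ℂ) + (t.im : ℂ) * I := (Complex.re_add_im t).symm
  unfold Cl
  rw [h2, h1, R11_lam_add, R11_lam_add, R11_lam_smul, R11_lam_smul, R11_lam_smul, R11_lam_smul]
  conv_rhs => rw [h3]
  push_cast
  linear_combination ((t.im : ℂ) * (lamf b l (I • u) : ℂ)) * Complex.I_mul_I

private theorem R11_Cl_re (l : Fin (2 * c + 1) → ℝ) (u : VN c) : (Cl (lamf b l) u).re = lamf b l u := by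
  unfold Cl
  simp

private theorem R11_herm_self {n : ℕ} (z : Fin n → ℂ) : herm z z = (nsq z : ℂ) := by
  unfold herm nsq
  push_cast
  refine Finset.sum_congr rfl fun j _ => ?_
  rw [Complex.mul_conj, Complex.normSq_eq_norm_sq]
  push_cast
  rfl

theorem qf_diff (l : Fin (2 * c + 1) → ℝ) : Differentiable ℂ (qf D b Y l) := by
  have h : RB (Rf D b Y) := Rf_RB
  let B : VN c →ₗ[ℂ] VN c →ₗ[ℂ] ℂ := LinearMap.mk₂ ℂ (Sf (Rf D b Y)) (fun u u' v => Sf_add h u u' v)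
    (fun t u v => by rw [Sf_smul h, smul_eq_mul])
    (fun u v v' => by rw [Sf_symm h u, Sf_add h, Sf_symm h v, Sf_symm h v'])
    (fun t u v => by rw [Sf_symm h u, Sf_smul h, Sf_symm h v, smul_eq_mul])
  let B1 : VN c →ₗ[ℂ] (VN c →L[ℂ] ℂ) := (LinearMap.toContinuousLinearMap : (VN c →ₗ[ℂ] ℂ) ≃ₗ[ℂ] (VN c →L[ℂ] ℂ)).toLinearMap ∘ₗ B
  let B2 : VN c →L[ℂ] (VN c →L[ℂ] ℂ) := LinearMap.toContinuousLinearMap B1
  let L1 : VN c →ₗ[ℂ] ℂ := { toFun := Cl (lamf b l), map_add' := R11_Cl_add l, map_smul' := fun t u => by rw [R11_Cl_smul]; rfl }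
  let L2 : VN c →L[ℂ] ℂ := LinearMap.toContinuousLinearMap L1
  have h1 : Differentiable ℂ (fun u : VN c => B2 u u) := B2.differentiable.clm_apply differentiable_id
  have h2 : Differentiable ℂ (fun u : VN c => L2 u) := L2.differentiable
  have h3 : qf D b Y l = fun u => -(Real.pi : ℂ) * B2 u u - L2 u := by
    funext u
    rfl
  rw [h3]
  exact (h1.const_mul _).sub h2

private theorem R11_ker_I {k : VN c} (hk : D.Lt *ᵥ k = 0) : D.Lt *ᵥ (I • k) = 0 := by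
  rw [Matrix.mulVec_smul, hk, smul_zero]

private theorem R11_S_ker (h : Dec D D.Lt b Y) {k : VN c} (hk : D.Lt *ᵥ k = 0) (v : VN c) : Sf (Rf D b Y) k v = 0 := by
  unfold Sf
  rw [Rf_ker h hk, Rf_ker h hk, Rf_ker h (R11_ker_I hk), Rf_ker h (R11_ker_I hk)]
  simp

theorem qf_ker (h : Dec D D.Lt b Y) (l : Fin (2 * c + 1) → ℝ) {k : VN c} (hk : D.Lt *ᵥ k = 0) (u : VN c) : qf D b Y l (u + k) = qf D b Y l u := by
  have hR : RB (Rf D b Y) := Rf_RB
  have h1 : Cl (lamf b l) k = 0 := by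
    unfold Cl lamf
    rw [(h.ker0 hk).1, (h.ker0 (R11_ker_I hk)).1]
    simp
  unfold qf
  rw [Sf_quad hR, R11_Cl_add, h1, Sf_symm hR u k, R11_S_ker h hk, R11_S_ker h hk]
  ring

private theorem R11_lat (a : Fin (2 * c + 1) → ℤ) : (lat D.d a : VN c) = rv (fun j => (D.d : ℝ) * (a j : ℝ)) := by
  funext j
  unfold lat rv
  push_cast
  rfl

private theorem R11_HS (h : Dec D D.Lt b Y) (u : VN c) (a : Fin (2 * c + 1) → ℝ) :
    Hf (Rf D b Y) u (rv a) + Sf (Rf D b Y) u (rv a) = -(I * (rv a ⬝ᵥ (D.Lt *ᵥ u))) := by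
  rw [HS_add Rf_RB, Rf_real h, Rf_real h, Matrix.mulVec_smul, dotProduct_smul, smul_eq_mul]
  apply Complex.ext <;> simp

theorem qf_trans (h : Dec D D.Lt b Y) (l : Fin (2 * c + 1) → ℝ) {ζ : VN c →ₗ[ℂ] Vc c} (hh : ∀ u v, Hf (Rf D b Y) u v = herm (ζ u) (ζ v))
    (a : Fin (2 * c + 1) → ℤ) : ∃ κ : ℂ,
    κ.re = Real.pi * nsq (ζ (lat D.d a)) -
      (Real.pi * ∑ j, (D.z j).im * ((D.d : ℝ) * (a j : ℝ)) ^ 2 + ∑ j, l j * ((D.d : ℝ) * (a j : ℝ))) ∧
    ∀ u, qf D b Y l (u + lat D.d a) = qf D b Y l u + 2 * Real.pi * I * (lat D.d a ⬝ᵥ (D.Lt *ᵥ u)) + 2 * Real.pi * herm (ζ u) (ζ (lat D.d a)) + κ := by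
  have hR : RB (Rf D b Y) := Rf_RB
  rw [R11_lat]
  set a' : Fin (2 * c + 1) → ℝ := fun j => (D.d : ℝ) * (a j : ℝ) with ha'
  refine ⟨-(Real.pi : ℂ) * Sf (Rf D b Y) (rv a') (rv a') - Cl (lamf b l) (rv a'), ?_, ?_⟩
  · have h1 := R11_HS h (rv a') a'
    rw [hh, R11_herm_self] at h1
    have h2 : Sf (Rf D b Y) (rv a') (rv a') = -(I * (rv a' ⬝ᵥ (D.Lt *ᵥ (rv a')))) - (nsq (ζ (rv a')) : ℂ) := by
      linear_combination h1
    have h3 : (Sf (Rf D b Y) (rv a') (rv a')).re = (rv a' ⬝ᵥ (D.Lt *ᵥ (rv a'))).im - nsq (ζ (rv a')) := by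
      rw [h2]
      simp
    have h4 : (rv a' ⬝ᵥ (D.Lt *ᵥ (rv a'))).im = ∑ j, (D.z j).im * a' j ^ 2 := by
      rw [← Rf_real h]
      unfold Rf
      rw [(h.b_rv a').1, (h.b_rv a').2]
      simp only [zero_mul, add_zero, mul_zero]
      refine Finset.sum_congr rfl fun j _ => ?_
      ring
    have h5 : lamf b l (rv a') = ∑ j, l j * a' j := by
      unfold lamf
      rw [(h.b_rv a').1]
    rw [Complex.sub_re, R11_Cl_re, h5]
    have h6 : (-(Real.pi : ℂ) * Sf (Rf D b Y) (rv a') (rv a')).re = -Real.pi * (Sf (Rf D b Y) (rv a') (rv a')).re := by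
      rw [← Complex.ofReal_neg, Complex.re_ofReal_mul]
    rw [h6, h3, h4]
    ring
  · intro u
    have h1 := R11_HS h u a'
    rw [hh] at h1
    unfold qf
    rw [Sf_quad hR, R11_Cl_add]
    linear_combination (-2 * (Real.pi : ℂ)) * h1

theorem qf_re (l : Fin (2 * c + 1) → ℝ) {ζ : VN c →ₗ[ℂ] Vc c} (hh : ∀ u v, Hf (Rf D b Y) u v = herm (ζ u) (ζ v)) (u : VN c) :
    (qf D b Y l u).re - Real.pi * nsq (ζ u) = -(Real.pi * Rf D b Y u u) - lamf b l u := by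
  have h1 := congrArg Complex.re (HS_add (R := Rf D b Y) Rf_RB u u)
  rw [hh, R11_herm_self] at h1
  simp only [Complex.add_re, Complex.sub_re, Complex.ofReal_re, Complex.mul_re, Complex.I_re, Complex.I_im, Complex.ofReal_im, zero_mul,
    sub_zero, mul_zero] at h1
  unfold qf
  rw [Complex.sub_re, R11_Cl_re, ← Complex.ofReal_neg, Complex.re_ofReal_mul]
  linear_combination (-Real.pi) * h1

/-- by `qf_re`, `Dec.b_pt`, `Dec.Y_pt'` the left side is `-π (∑ (z_j).im b'_j² + 2 y ∑ (v0_j).re b'_j + γ y²) - ∑ l_j b'_j` -/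
theorem qf_bd (h : Dec D D.Lt b Y) (l : Fin (2 * c + 1) → ℝ) {ζ : VN c →ₗ[ℂ] Vc c} (hh : ∀ u v, Hf (Rf D b Y) u v = herm (ζ u) (ζ v)) :
    ∃ C : ℝ, 0 ≤ C ∧ ∀ (b' : Fin (2 * c + 1) → ℝ) (y : ℝ), (∀ j, 0 ≤ b' j ∧ b' j ≤ D.d) →
      |(qf D b Y l (pt D.g b' y)).re - Real.pi * nsq (ζ (pt D.g b' y))| ≤ C * (1 + y ^ 2) := by
  have hz : ∀ j, 0 ≤ (D.z j).im := fun j => (D.im j).le
  have hA0 : 0 ≤ ∑ j, (D.z j).im * (D.d : ℝ) ^ 2 := Finset.sum_nonneg fun j _ => mul_nonneg (hz j) (by positivity)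
  have hB0 : 0 ≤ ∑ j, |(D.v0 j).re| * (D.d : ℝ) := Finset.sum_nonneg fun j _ => by positivity
  have hE0 : 0 ≤ ∑ j, |l j| * (D.d : ℝ) := Finset.sum_nonneg fun j _ => by positivity
  refine ⟨Real.pi * (∑ j, (D.z j).im * (D.d : ℝ) ^ 2 + ∑ j, |(D.v0 j).re| * (D.d : ℝ) + |gam0 D|) + ∑ j, |l j| * (D.d : ℝ), ?_, ?_⟩
  · have := Real.pi_pos
    positivity
  · intro b' y hb'
    have hbn : ∀ j, |b' j| ≤ D.d := fun j => by
      rw [abs_of_nonneg (hb' j).1]
      exact (hb' j).2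
    rw [qf_re l hh]
    have e1 : Rf D b Y (pt D.g b' y) (pt D.g b' y) =
        ∑ j, (D.z j).im * (b' j * b' j) + 2 * (y * ∑ j, (D.v0 j).re * b' j) + gam0 D * (y * y) := by
      unfold Rf
      rw [h.b_pt, h.Y_pt']
      ring
    have e2 : lamf b l (pt D.g b' y) = ∑ j, l j * b' j := by
      unfold lamf
      rw [h.b_pt]
    rw [e1, e2]
    have b1 : |∑ j, (D.z j).im * (b' j * b' j)| ≤ ∑ j, (D.z j).im * (D.d : ℝ) ^ 2 := by
      refine (Finset.abs_sum_le_sum_abs _ _).trans (Finset.sum_le_sum fun j _ => ?_)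
      rw [abs_mul, abs_of_nonneg (hz j), abs_mul, sq]
      exact mul_le_mul_of_nonneg_left (mul_le_mul (hbn j) (hbn j) (abs_nonneg _) (by positivity)) (hz j)
    have b2 : |∑ j, (D.v0 j).re * b' j| ≤ ∑ j, |(D.v0 j).re| * (D.d : ℝ) := by
      refine (Finset.abs_sum_le_sum_abs _ _).trans (Finset.sum_le_sum fun j _ => ?_)
      rw [abs_mul]
      exact mul_le_mul_of_nonneg_left (hbn j) (abs_nonneg _)
    have b3 : |∑ j, l j * b' j| ≤ ∑ j, |l j| * (D.d : ℝ) := by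
      refine (Finset.abs_sum_le_sum_abs _ _).trans (Finset.sum_le_sum fun j _ => ?_)
      rw [abs_mul]
      exact mul_le_mul_of_nonneg_left (hbn j) (abs_nonneg _)
    generalize (∑ j, (D.z j).im * (b' j * b' j)) = s1 at *
    generalize (∑ j, (D.v0 j).re * b' j) = s2 at *
    generalize (∑ j, l j * b' j) = s3 at *
    generalize (∑ j, (D.z j).im * (D.d : ℝ) ^ 2) = A at *
    generalize (∑ j, |(D.v0 j).re| * (D.d : ℝ)) = Bc at *
    generalize (∑ j, |l j| * (D.d : ℝ)) = E at *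
    have hy : 2 * |y| ≤ 1 + y ^ 2 := by
      nlinarith [sq_nonneg (|y| - 1), sq_abs y]
    have hpi := Real.pi_pos
    have t1 : |s1 + 2 * (y * s2) + gam0 D * (y * y)| ≤ (A + Bc + |gam0 D|) * (1 + y ^ 2) := by
      have u1 : |s1 + 2 * (y * s2) + gam0 D * (y * y)| ≤ |s1| + |2 * (y * s2)| + |gam0 D * (y * y)| :=
        (abs_add_le _ _).trans (add_le_add_left (abs_add_le _ _) _)
      have u2 : |2 * (y * s2)| ≤ Bc * (1 + y ^ 2) := by
        rw [abs_mul, abs_mul, abs_of_pos (by norm_num : (0 : ℝ) < 2), ← mul_assoc, mul_comm Bc]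
        exact mul_le_mul hy b2 (abs_nonneg _) (by positivity)
      have u3 : |gam0 D * (y * y)| ≤ |gam0 D| * (1 + y ^ 2) := by
        rw [abs_mul, abs_mul_self]
        exact mul_le_mul_of_nonneg_left (by nlinarith) (abs_nonneg _)
      have u4 : |s1| ≤ A * (1 + y ^ 2) := by nlinarith [sq_nonneg y]
      linarith
    have t2 : |s3| ≤ E * (1 + y ^ 2) := by nlinarith [sq_nonneg y]
    have t3 : |-(Real.pi * (s1 + 2 * (y * s2) + gam0 D * (y * y))) - s3| ≤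
        Real.pi * |s1 + 2 * (y * s2) + gam0 D * (y * y)| + |s3| := by
      refine (abs_sub _ _).trans ?_
      rw [abs_neg, abs_mul, abs_of_pos hpi]
    have t4 := mul_le_mul_of_nonneg_left t1 hpi.le
    nlinarith

end Pool.Agent.LT
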