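import Pool.Agent.Lib.MP_f58a57_nt.LT.DD.Defs

/-!
# MP_f58a57_nt, large transcendence degree, part D analysis (row lt-DD13): the sections become quasi-periodic functions on the tower (D.5)

`E u := F u * exp (q u)` is invariant under `ker P` and `E (u + a) = C a exp(κ) exp(2π herm (ζ u) (ζ a)) E u` for `a = lat d a'`: the factor
`ee (-(a ⬝ᵥ (P *ᵥ u)))` cancels `exp (2π i (a ⬝ᵥ (P *ᵥ u)))`; `‖C a exp κ‖ = exp (π nsq (ζ a))` (MulL and `trans`). `G = E ∘ sec`; for `γ = ζ a`: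
`sec (z + γ) = sec z + a + k`, `ζ k = 0` so `P k = 0`. Take `e := C a * exp κ / exp (π nsq γ)`.
`NN G (ζ u) = ‖F u‖ exp (Re q u - π nsq (ζ u))` since `sec (ζ u) - u ∈ ker P`.
Box: `sec z = pt g b Y + k` (`Dec.dec`), `a j := ⌊b j / d⌋`, `b' = b - d a ∈ [0,d]`, `z = ζ (pt g b' Y) + ζ (lat d a)`; `NN_inv` and `Gf_aut`.
-/

open Complex Matrix

noncomputable section

namespace Pool.Agent.LT

variable {c : ℕ} {D : Dat c} {b : VN c →ₗ[ℝ] (Fin (2 * c + 1) → ℝ)} {Y : VN c →ₗ[ℝ] ℝ} {l : Fin (2 * c + 1) → ℝ} {ζ : VN c →ₗ[ℂ] Vc c}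
  {sec : Vc c →ₗ[ℂ] VN c} {q : VN c → ℂ} {c3 C : ℝ} {Cf : (Fin (2 * c + 1) → ℤ) → ℂ} {F : VN c → ℂ}

private theorem R13_zero (hN : NF D b Y l ζ sec q c3 C) {k : VN c} (hk : ζ k = 0) : D.Lt *ᵥ k = 0 :=
  (hN.ker k).1 hk

theorem Gf_aut (hN : NF D b Y l ζ sec q c3 C) (hC : MulL D.d D.z l Cf) (hF : Sec D.d D.Lt Cf F) : Aut (Gam D.d ζ) (Gf sec q F) := by
  refine ⟨?_, ?_⟩
  · have hs : Differentiable ℂ (fun z : Vc c => sec z) := (LinearMap.toContinuousLinearMap sec).differentiable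
    have h1 : Differentiable ℂ (fun z : Vc c => F (sec z)) := hF.diff.comp hs
    have h2 : Differentiable ℂ (fun z : Vc c => cexp (q (sec z))) := (hN.diff.comp hs).cexp
    exact h1.mul h2
  · intro γ hγ
    obtain ⟨a, ha⟩ := mem_Gam.1 hγ
    obtain ⟨κ, hκ, htr⟩ := hN.trans a
    rw [ha] at hκ
    refine ⟨Cf a * cexp κ * cexp (-((Real.pi * nsq γ : ℝ) : ℂ)), ?_, ?_⟩
    · rw [norm_mul, norm_mul, hC a, Complex.norm_exp, Complex.norm_exp, hκ, ← Real.exp_add, ← Real.exp_add]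
      rw [Complex.neg_re, Complex.ofReal_re]
      rw [show Real.pi * ∑ j, (D.z j).im * ((D.d : ℝ) * (a j : ℝ)) ^ 2 + ∑ j, l j * ((D.d : ℝ) * (a j : ℝ)) +
        (Real.pi * nsq γ - (Real.pi * ∑ j, (D.z j).im * ((D.d : ℝ) * (a j : ℝ)) ^ 2 + ∑ j, l j * ((D.d : ℝ) * (a j : ℝ)))) +
        -(Real.pi * nsq γ) = 0 by ring]
      exact Real.exp_zero
    · intro z
      have hk : ζ (sec (z + γ) - (sec z + lat D.d a)) = 0 := by
        rw [map_sub, hN.hsec, map_add ζ, hN.hsec, ha, sub_self]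
      have hk' := R13_zero hN hk
      have e1 : sec (z + γ) = (sec z + lat D.d a) + (sec (z + γ) - (sec z + lat D.d a)) := by abel
      have hFz : F (sec (z + γ)) = Cf a * ee (-(lat D.d a ⬝ᵥ (D.Lt *ᵥ (sec z)))) * F (sec z) := by
        rw [e1, hF.ker _ hk', hF.per]
      have hqz : q (sec (z + γ)) = q (sec z) + 2 * Real.pi * I * (lat D.d a ⬝ᵥ (D.Lt *ᵥ (sec z))) +
          2 * Real.pi * herm z γ + κ := by
        rw [e1, hN.qker _ hk', htr, hN.hsec, ha]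
      show F (sec (z + γ)) * cexp (q (sec (z + γ))) = _ * (F (sec z) * cexp (q (sec z)))
      rw [hFz, hqz]
      unfold ee
      have e2 : cexp (q (sec z) + 2 * Real.pi * I * (lat D.d a ⬝ᵥ (D.Lt *ᵥ (sec z))) + 2 * Real.pi * herm z γ + κ) =
          cexp (q (sec z)) * cexp (2 * Real.pi * I * (lat D.d a ⬝ᵥ (D.Lt *ᵥ (sec z)))) * cexp (2 * Real.pi * herm z γ) * cexp κ := by
        rw [← Complex.exp_add, ← Complex.exp_add, ← Complex.exp_add]
      have e3 : cexp (2 * Real.pi * herm z γ + Real.pi * nsq γ) = cexp (2 * Real.pi * herm z γ) * cexp ((Real.pi * nsq γ : ℝ) : ℂ) := by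
        rw [← Complex.exp_add]
        push_cast
        rfl
      have e4 : cexp (-((Real.pi * nsq γ : ℝ) : ℂ)) * cexp ((Real.pi * nsq γ : ℝ) : ℂ) = 1 := by
        rw [← Complex.exp_add, neg_add_cancel, Complex.exp_zero]
      have e5 : cexp (2 * Real.pi * I * (-(lat D.d a ⬝ᵥ (D.Lt *ᵥ (sec z))))) * cexp (2 * Real.pi * I * (lat D.d a ⬝ᵥ (D.Lt *ᵥ (sec z)))) = 1 := by
        rw [← Complex.exp_add, mul_neg, neg_add_cancel, Complex.exp_zero]
      rw [e2, e3]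
      linear_combination (Cf a * F (sec z) * cexp (q (sec z)) * cexp (2 * Real.pi * herm z γ) * cexp κ) * e5 -
        (Cf a * cexp κ * cexp (2 * Real.pi * herm z γ) * F (sec z) * cexp (q (sec z))) * e4

theorem NN_Gf (hN : NF D b Y l ζ sec q c3 C) (hF : Sec D.d D.Lt Cf F) (u : VN c) :
    NN (Gf sec q F) (ζ u) = ‖F u‖ * Real.exp ((q u).re - Real.pi * nsq (ζ u)) := by
  have hk : ζ (sec (ζ u) - u) = 0 := by rw [map_sub, hN.hsec, sub_self]
  have hk' := R13_zero hN hk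
  have e1 : sec (ζ u) = u + (sec (ζ u) - u) := by abel
  have h1 : F (sec (ζ u)) = F u := by rw [e1, hF.ker _ hk']
  have h2 : q (sec (ζ u)) = q u := by rw [e1, hN.qker _ hk']
  unfold NN Gf
  rw [h1, h2, norm_mul, Complex.norm_exp, mul_assoc, ← Real.exp_add]
  congr 2

theorem exists_box (hN : NF D b Y l ζ sec q c3 C) (hC : MulL D.d D.z l Cf) (hF : Sec D.d D.Lt Cf F) (z : Vc c) :
    ∃ (b' : Fin (2 * c + 1) → ℝ) (y : ℝ), (∀ j, 0 ≤ b' j ∧ b' j ≤ D.d) ∧ (z 0).im = c3 * y ∧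
      NN (Gf sec q F) z = NN (Gf sec q F) (ζ (pt D.g b' y)) := by
  have hd : (0 : ℝ) < D.d := by exact_mod_cast D.hd
  have hz : z = ζ (pt D.g (b (sec z)) (Y (sec z))) := by
    have h1 := (hN.ker _).2 (hN.dec.dec (sec z))
    rw [map_sub, hN.hsec, sub_eq_zero] at h1
    exact h1
  set y := Y (sec z) with hy
  set B := b (sec z) with hB
  let a : Fin (2 * c + 1) → ℤ := fun j => ⌊B j / D.d⌋
  let b' : Fin (2 * c + 1) → ℝ := fun j => B j - D.d * (a j : ℝ)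
  have hpt : pt D.g B y = pt D.g b' y + lat D.d a := by
    funext j
    simp only [pt, lat, b', Pi.add_apply]
    push_cast
    ring
  refine ⟨b', y, ?_, ?_, ?_⟩
  · intro j
    have h1 : (a j : ℝ) ≤ B j / D.d := Int.floor_le _
    have h2 : B j / D.d < (a j : ℝ) + 1 := Int.lt_floor_add_one _
    rw [le_div_iff₀ hd] at h1
    rw [div_lt_iff₀ hd] at h2
    constructor
    · show 0 ≤ B j - D.d * (a j : ℝ)
      linarith
    · show B j - D.d * (a j : ℝ) ≤ D.d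
      linarith
  · rw [hz]
    exact hN.im0 B y
  · have h1 : z = ζ (pt D.g b' y) + ζ (lat D.d a) := by
      rw [← map_add, ← hpt]
      exact hz
    rw [h1]
    exact NN_inv (Gf_aut hN hC hF) (mem_Gam.2 ⟨a, rfl⟩) _

end Pool.Agent.LT
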