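import Pool.Agent.Lib.MP_f58a57_nt.LT.DD.Defs

/-!
# MP_f58a57_nt, large transcendence degree, part D analysis (row lt-DD15): the jets

`Gf sec q F = (F ∘ sec) * exp (q ∘ sec)`. `cf (F ∘ sec) v d = cf F (sec v) d` (definition of `cf`, `sec` linear), `cf_eq_words` gives
`‖cf F (sec v) d‖ ≤ (N B)^d η` with `‖(sec v) j‖ ≤ B` for `‖v i‖ ≤ 1` (`B = ∑_{i j} ‖sec e_i j‖`; number of words `N^d`, `1/d! ≤ 1`), `N = 2c+1`.
`‖cf (exp (q ∘ sec)) v d‖ ≤ E` by `cf_bound` with `r = 1`: `E = sup` of `‖exp (q (sec z))‖` on the compact unit polydisc. `cf_mul`: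
`‖cf G v d‖ ≤ ∑_{x.1 + x.2 = d} (N B)^x.1 η E ≤ (d + 1) (1 + N B)^d E η ≤ C3^T η` for `d < T` (`d + 1 ≤ 2^T`).
-/

open Complex Matrix

noncomputable section

namespace Pool.Agent.LT

variable {c : ℕ}

theorem cf_sec (sec : Vc c →ₗ[ℂ] VN c) (F : VN c → ℂ) (v : Vc c) (d : ℕ) : cf (fun z => F (sec z)) v d = cf F (sec v) d := by
  unfold cf
  simp only [map_smul]

theorem jets_DD (sec : Vc c →ₗ[ℂ] VN c) (q : VN c → ℂ) (hq : Differentiable ℂ q) : ∃ C3 : ℝ, 1 ≤ C3 ∧ ∀ F : VN c → ℂ, Differentiable ℂ F →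
    ∀ (T : ℕ) (η : ℝ), 0 ≤ η → (∀ w : List (Fin (2 * c + 1)), w.length < T → ‖pdl w F 0‖ ≤ η) → JJ (Gf sec q F) T (C3 ^ T * η) := by
  have hsc : Continuous sec := sec.continuous_of_finiteDimensional
  have hsd : Differentiable ℂ sec := (LinearMap.toContinuousLinearMap sec).differentiable
  set S := LinearMap.toContinuousLinearMap sec with hS
  set B : ℝ := ‖S‖ with hB
  have hB0 : 0 ≤ B := norm_nonneg _
  have hpoly : ∀ v : Vc c, (∀ i, ‖v i‖ ≤ 1) → ‖v‖ ≤ 1 := fun v hv => (pi_norm_le_iff_of_nonneg zero_le_one).2 hv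
  have hsecB : ∀ v : Vc c, (∀ i, ‖v i‖ ≤ 1) → ∀ j, ‖sec v j‖ ≤ B := by
    intro v hv j
    have h1 : ‖S v‖ ≤ ‖S‖ * ‖v‖ := S.le_opNorm v
    have h2 : ‖S‖ * ‖v‖ ≤ ‖S‖ := mul_le_of_le_one_right (norm_nonneg _) (hpoly v hv)
    have h3 : ‖sec v j‖ ≤ ‖sec v‖ := norm_le_pi_norm (sec v) j
    have h4 : sec v = S v := rfl
    rw [h4] at h3
    rw [h4]
    exact h3.trans (h1.trans h2)
  obtain ⟨E, hE⟩ := (isCompact_closedBall (0 : Vc c) 1).exists_bound_of_continuousOn
    (f := fun z : Vc c => cexp (q (sec z))) (by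
      exact (Complex.continuous_exp.comp (hq.continuous.comp hsc)).continuousOn)
  have hE0 : 0 ≤ E := (norm_nonneg _).trans (hE 0 (by simp))
  have hEd : Differentiable ℂ (fun z : Vc c => cexp (q (sec z))) := (hq.comp hsd).cexp
  set N : ℝ := ((2 * c + 1 : ℕ) : ℝ) with hN
  have hN0 : 0 ≤ N := Nat.cast_nonneg _
  refine ⟨2 * (1 + N * B) * (1 + E), ?_, ?_⟩
  · have h1 : 1 ≤ 1 + N * B := by nlinarith [mul_nonneg hN0 hB0]
    have h2 : 1 ≤ 1 + E := by linarith
    nlinarith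
  intro F hF T η hη hw v hv d hd
  have hdT : d < T := by exact_mod_cast hd
  have hFd : Differentiable ℂ (fun z : Vc c => F (sec z)) := hF.comp hsd
  -- the coefficients of `F ∘ sec`
  have c1 : ∀ e ≤ d, ‖cf (fun z => F (sec z)) v e‖ ≤ (N * B) ^ e * η := by
    intro e he
    rw [cf_sec]
    have h1 := cf_eq_words hF (sec v) e
    have h2 : ‖(e.factorial : ℂ) * cf F (sec v) e‖ ≤ (N * B) ^ e * η := by
      rw [h1]
      refine (norm_sum_le _ _).trans ?_
      have h3 : ∀ w ∈ (Finset.univ : Finset (Fin e → Fin (2 * c + 1))), ‖(∏ i, sec v (w i)) * pdl (List.ofFn w) F 0‖ ≤ B ^ e * η := by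
        intro w _
        rw [norm_mul, norm_prod]
        have h4 : ∏ i, ‖sec v (w i)‖ ≤ ∏ _i : Fin e, B := Finset.prod_le_prod (fun i _ => norm_nonneg _) fun i _ => hsecB v hv _
        have h5 : ‖pdl (List.ofFn w) F 0‖ ≤ η := hw _ (by rw [List.length_ofFn]; omega)
        rw [Finset.prod_const, Finset.card_univ, Fintype.card_fin] at h4
        exact mul_le_mul h4 h5 (norm_nonneg _) (by positivity)
      refine (Finset.sum_le_sum h3).trans (le_of_eq ?_)
      rw [Finset.sum_const, Finset.card_univ, Fintype.card_fun, Fintype.card_fin, Fintype.card_fin, nsmul_eq_mul, mul_pow, hN]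
      push_cast
      ring
    rw [norm_mul] at h2
    have h6 : (1 : ℝ) ≤ ‖(e.factorial : ℂ)‖ := by
      rw [Complex.norm_natCast]
      exact_mod_cast Nat.one_le_iff_ne_zero.2 (Nat.factorial_ne_zero e)
    calc ‖cf F (sec v) e‖ = 1 * ‖cf F (sec v) e‖ := (one_mul _).symm
      _ ≤ ‖(e.factorial : ℂ)‖ * ‖cf F (sec v) e‖ := mul_le_mul_of_nonneg_right h6 (norm_nonneg _)
      _ ≤ _ := h2
  -- the coefficients of the exponential
  have c2 : ∀ e, ‖cf (fun z : Vc c => cexp (q (sec z))) v e‖ ≤ E := by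
    intro e
    have h1 := cf_bound hEd v e (r := 1) (M := E) zero_lt_one (by
      intro t ht
      refine hE (t • v) ?_
      rw [mem_closedBall_zero_iff, norm_smul, ht, one_mul]
      exact hpoly v hv)
    simpa using h1
  have h1 : cf (Gf sec q F) v d = cf (fun z => F (sec z) * cexp (q (sec z))) v d := rfl
  rw [h1, cf_mul hFd hEd]
  refine (norm_sum_le _ _).trans ?_
  have hNB : 0 ≤ N * B := mul_nonneg hN0 hB0
  have h2 : ∀ x ∈ Finset.HasAntidiagonal.antidiagonal d, ‖cf (fun z => F (sec z)) v x.1 * cf (fun z : Vc c => cexp (q (sec z))) v x.2‖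
      ≤ (1 + N * B) ^ T * η * E := by
    intro x hx
    have hx1 : x.1 + x.2 = d := Finset.HasAntidiagonal.mem_antidiagonal.1 hx
    rw [norm_mul]
    have h3 := c1 x.1 (by omega)
    have h4 : (N * B) ^ x.1 ≤ (1 + N * B) ^ T :=
      (pow_le_pow_left₀ hNB (by linarith) x.1).trans (pow_le_pow_right₀ (by linarith) (by omega))
    have h5 : (N * B) ^ x.1 * η ≤ (1 + N * B) ^ T * η := mul_le_mul_of_nonneg_right h4 hη
    exact mul_le_mul (h3.trans h5) (c2 _) (norm_nonneg _) (by positivity)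
  refine (Finset.sum_le_sum h2).trans ?_
  rw [Finset.sum_const, Finset.Nat.card_antidiagonal, nsmul_eq_mul]
  have h6 : ((d + 1 : ℕ) : ℝ) ≤ 2 ^ T := by
    have h7 : d + 1 ≤ 2 ^ T := by
      have := Nat.lt_two_pow_self (n := T)
      omega
    exact_mod_cast h7
  have h8 : E ≤ (1 + E) ^ T := by
    have h9 : (1 + E) ^ 1 ≤ (1 + E) ^ T := pow_le_pow_right₀ (by linarith) (by omega)
    rw [pow_one] at h9
    linarith
  calc ((d + 1 : ℕ) : ℝ) * ((1 + N * B) ^ T * η * E) ≤ 2 ^ T * ((1 + N * B) ^ T * η * (1 + E) ^ T) := by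
        refine mul_le_mul h6 (mul_le_mul_of_nonneg_left h8 (by positivity)) (by positivity) (by positivity)
    _ = (2 * (1 + N * B) * (1 + E)) ^ T * η := by
        rw [mul_pow, mul_pow]
        ring

end Pool.Agent.LT
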