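import Mathlib

/-!
# MP_f58a57_nt, large transcendence degree, part D analysis (row lt-DD16): estimates for large `T`

`k ≥ T^(1/2+ε)`, so `k² ≥ T^(1+2ε) ≥ T`. (3): `C3^T = exp (T log C3)`, `T log C3 ≤ k² log C3`, so it is enough that `log C3 + T^(ε/2) c3² ≤ T^ε = (T^(ε/2))²`:
true if `T^(ε/2) ≥ 1 + c3² + log C3`. (1): `|c3| T^(ε/2) ≥ 1`. (2): `T^(ε/2) ≥ |c3|`.
(4): `C := CB + 4 CB (C1 + 1) / c3²`: `C1 ≤ c3² k²/(4 CB)` for `T` large, `C1 (k/C)² ≤ c3² k² / (4 CB)`, `k²/C ≤ c3² k² / (4 CB)`.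
-/

open Complex Matrix

noncomputable section

namespace Pool.Agent.LT

theorem est (c : ℕ) (ε c3 C1 C3 CB T1 : ℝ) (hε : 0 < ε) (hε1 : ε ≤ 1 / 20) (hc3 : c3 ≠ 0) (hC1 : 0 ≤ C1) (hC3 : 1 ≤ C3) (hCB : 1 ≤ CB) :
    ∃ C T0 : ℝ, 1 ≤ C ∧ T1 ≤ T0 ∧ ∀ T : ℕ, T0 ≤ (T : ℝ) → ∀ k : ℝ, (T : ℝ) ^ (1 / 2 + ε) ≤ k → k ≤ (T : ℝ) ^ ((c : ℝ) + 1 - ε) →
      0 < k ∧ (T : ℝ) ^ (1 / 2 + ε / 2) ≤ |c3| * k ∧ |c3| * k ≤ (T : ℝ) ^ ((c : ℝ) + 1 - ε / 2) ∧
      C3 ^ T * Real.exp (-((T : ℝ) ^ ε * k ^ 2)) ≤ Real.exp (-((T : ℝ) ^ (ε / 2) * (|c3| * k) ^ 2)) ∧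
      ∀ y : ℝ, |y| ≤ k / C → |c3 * y| ≤ |c3| * k / CB ∧
        Real.exp (-((|c3| * k) ^ 2 / CB)) * Real.exp (C1 * (1 + y ^ 2)) ≤ Real.exp (-(k ^ 2 / C)) := by
  have hA : 0 < |c3| := abs_pos.mpr hc3
  set A : ℝ := |c3| with hAdef
  have hA2 : 0 < A ^ 2 := by positivity
  have hL : 0 ≤ Real.log C3 := Real.log_nonneg hC3
  have hCB0 : 0 < CB := by linarith
  set C : ℝ := CB + 4 * CB * (C1 + 1) / A ^ 2 with hC
  set S : ℝ := 1 + A + 1 / A + A ^ 2 + Real.log C3 with hS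
  have hS1 : 1 ≤ S := by
    have : 0 < 1 / A := by positivity
    rw [hS]; linarith
  have hCge : CB ≤ C := by
    have : 0 ≤ 4 * CB * (C1 + 1) / A ^ 2 := by positivity
    rw [hC]; linarith
  have hC1' : 1 ≤ C := hCB.trans hCge
  have hC0 : 0 < C := by linarith
  have hCa : 4 * CB * (C1 + 1) / A ^ 2 ≤ C := by rw [hC]; linarith
  refine ⟨C, max T1 (max 1 (max (S ^ (2 / ε)) (4 * CB * C1 / A ^ 2))), hC1', le_max_left _ _, ?_⟩
  intro T hT k hk1 hk2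
  have hT1 : (1 : ℝ) ≤ T := le_trans ((le_max_left _ _).trans (le_max_right _ _)) hT
  have hTS : S ^ (2 / ε) ≤ (T : ℝ) :=
    le_trans ((le_max_left _ _).trans ((le_max_right _ _).trans (le_max_right _ _))) hT
  have hTC : 4 * CB * C1 / A ^ 2 ≤ (T : ℝ) :=
    le_trans ((le_max_right _ _).trans ((le_max_right _ _).trans (le_max_right _ _))) hT
  have hT0 : (0 : ℝ) < T := by linarith
  set X : ℝ := (T : ℝ) with hX
  set s : ℝ := X ^ (ε / 2) with hs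
  have hsS : S ≤ s := by
    have h1 : (S ^ (2 / ε)) ^ (ε / 2) ≤ X ^ (ε / 2) :=
      Real.rpow_le_rpow (by positivity) hTS (by linarith)
    have h2 : (S ^ (2 / ε)) ^ (ε / 2) = S := by
      rw [← Real.rpow_mul (by linarith)]
      have : 2 / ε * (ε / 2) = 1 := by field_simp
      rw [this, Real.rpow_one]
    rw [h2] at h1
    exact h1
  have hs1 : 1 ≤ s := hS1.trans hsS
  have hs0 : 0 < s := by linarith
  have hinv : 0 < 1 / A := by positivity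
  have hsA : A ≤ s := by linarith [hsS]
  have hsiA : 1 / A ≤ s := by linarith [hsS]
  have hssq : s * s = X ^ ε := by
    rw [hs, ← Real.rpow_add hT0]; congr 1; ring
  have hk0 : 0 < k := lt_of_lt_of_le (Real.rpow_pos_of_pos hT0 _) hk1
  have hkX : X ≤ k ^ 2 := by
    have h1 : (X ^ (1 / 2 + ε)) ^ 2 ≤ k ^ 2 := pow_le_pow_left₀ (by positivity) hk1 2
    have h2 : (X ^ (1 / 2 + ε)) ^ 2 = X ^ (1 + 2 * ε) := by
      rw [← Real.rpow_natCast, ← Real.rpow_mul hT0.le]; congr 1; push_cast; ring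
    have h3 : X ^ (1 : ℝ) ≤ X ^ (1 + 2 * ε) := Real.rpow_le_rpow_of_exponent_le hT1 (by linarith)
    rw [Real.rpow_one] at h3
    linarith [h2 ▸ h1]
  refine ⟨hk0, ?_, ?_, ?_, ?_⟩
  · -- (1)
    have h1 : X ^ (1 / 2 + ε) = X ^ (1 / 2 + ε / 2) * s := by
      rw [hs, ← Real.rpow_add hT0]; congr 1; ring
    have h2 : 1 ≤ A * s := by
      have := mul_le_mul_of_nonneg_left hsiA hA.le
      rwa [mul_one_div_cancel hA.ne'] at this
    have h3 : 0 ≤ X ^ (1 / 2 + ε / 2) := by positivity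
    calc X ^ (1 / 2 + ε / 2) = X ^ (1 / 2 + ε / 2) * 1 := (mul_one _).symm
      _ ≤ X ^ (1 / 2 + ε / 2) * (A * s) := mul_le_mul_of_nonneg_left h2 h3
      _ = A * X ^ (1 / 2 + ε) := by rw [h1]; ring
      _ ≤ A * k := mul_le_mul_of_nonneg_left hk1 hA.le
  · -- (2)
    have h1 : X ^ ((c : ℝ) + 1 - ε / 2) = X ^ ((c : ℝ) + 1 - ε) * s := by
      rw [hs, ← Real.rpow_add hT0]; congr 1; ring
    have h3 : 0 ≤ X ^ ((c : ℝ) + 1 - ε) := by positivity
    calc A * k ≤ s * X ^ ((c : ℝ) + 1 - ε) := mul_le_mul hsA hk2 hk0.le hs0.le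
      _ = X ^ ((c : ℝ) + 1 - ε / 2) := by rw [h1]; ring
  · -- (3)
    have h1 : C3 ^ T = Real.exp (X * Real.log C3) := by
      rw [hX, Real.exp_nat_mul, Real.exp_log (by linarith)]
    rw [h1, ← Real.exp_add, Real.exp_le_exp, ← hssq]
    have h2 : X * Real.log C3 ≤ k ^ 2 * Real.log C3 := mul_le_mul_of_nonneg_right hkX hL
    have h3 : Real.log C3 + s * A ^ 2 ≤ s * s := by
      have h4 : s * (1 + A ^ 2 + Real.log C3) ≤ s * s := by
        refine mul_le_mul_of_nonneg_left ?_ hs0.le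
        linarith [hsS]
      have h5 : Real.log C3 ≤ s * Real.log C3 := le_mul_of_one_le_left hL hs1
      nlinarith
    have h6 : k ^ 2 * (Real.log C3 + s * A ^ 2) ≤ k ^ 2 * (s * s) := mul_le_mul_of_nonneg_left h3 (by positivity)
    nlinarith
  · -- (4)
    intro y hy
    constructor
    · rw [abs_mul, ← hAdef]
      calc A * |y| ≤ A * (k / C) := mul_le_mul_of_nonneg_left hy hA.le
        _ ≤ A * (k / CB) := by
            refine mul_le_mul_of_nonneg_left ?_ hA.le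
            exact div_le_div_of_nonneg_left hk0.le hCB0 hCge
        _ = A * k / CB := by ring
    · rw [← Real.exp_add, Real.exp_le_exp]
      have hy2 : y ^ 2 ≤ (k / C) ^ 2 := by
        rw [← sq_abs y]
        exact pow_le_pow_left₀ (abs_nonneg y) hy 2
      have hq : 0 ≤ A ^ 2 * k ^ 2 / (4 * CB) := by positivity
      have e1 : C1 ≤ A ^ 2 * k ^ 2 / (4 * CB) := by
        rw [le_div_iff₀ (by positivity)]
        have h1 : 4 * CB * C1 / A ^ 2 ≤ k ^ 2 := hTC.trans hkX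
        rw [div_le_iff₀ hA2] at h1
        linarith
      have e0 : (C1 + 1) * (k ^ 2 / C) ≤ A ^ 2 * k ^ 2 / (4 * CB) := by
        rw [mul_div_assoc', div_le_div_iff₀ hC0 (by positivity)]
        rw [div_le_iff₀ hA2] at hCa
        have hk2' : 0 ≤ k ^ 2 := by positivity
        calc (C1 + 1) * k ^ 2 * (4 * CB) = (4 * CB * (C1 + 1)) * k ^ 2 := by ring
          _ ≤ (C * A ^ 2) * k ^ 2 := mul_le_mul_of_nonneg_right hCa hk2'
          _ = A ^ 2 * k ^ 2 * C := by ring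
      have e2 : C1 * y ^ 2 ≤ C1 * (k ^ 2 / C) := by
        refine mul_le_mul_of_nonneg_left (hy2.trans ?_) hC1
        rw [div_pow]
        refine div_le_div_of_nonneg_left (by positivity) hC0 ?_
        nlinarith
      have e3 : (C1 + 1) * (k ^ 2 / C) = C1 * (k ^ 2 / C) + k ^ 2 / C := by ring
      have e4 : (A * k) ^ 2 / CB = 4 * (A ^ 2 * k ^ 2 / (4 * CB)) := by
        rw [mul_pow]; field_simp
      rw [e4]
      nlinarith

end Pool.Agent.LT
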