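import Pool.Agent.Lib.MP_f58a57_nt.LT.DD.R1

/-!
# MP_f58a57_nt, large transcendence degree, part D analysis (row lt-DD2): the covering lemma

Proof (D.4, COV LEMMA). Put `D = √Δ`, `σ = b1.im - D a1.im ≠ 0`, `α = a1.im`. With `X = m + n D` we have `m a0.re + n b0.re = s X`,
`m a1.im + n b1.im = α X + n σ`. So it is enough to have `|x/s - X| ≤ r/|s|` and `|y' - n| ≤ k/(2|σ|)` with `y' = (y - α x/s)/σ`, provided `|α| r/|s| ≤ k/2`
(take `C ≥ 2|α|/|s|`). With `X' = m - n D`, `n = (X - X')/(2D)`: `|y' - n| ≤ (|x/s - X| + |x'' - X'|)/(2D)` with `x'' = x/s - 2 D y'`. Apply `pell_cover` with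
`r' = min (r/|s|) (D k/(2|σ|))` - or directly `r' = r/|s|`, using `C` large so that `r/|s| ≤ D k/(2|σ|)` - and `k' = D k/(2|σ|)`.
-/

open Complex Matrix

noncomputable section

namespace Pool.Agent.LT

theorem cov2_of (Δ : ℕ) (hΔ : ¬ IsSquare Δ) (s : ℝ) (hs : s ≠ 0) (a0 b0 a1 b1 : ℂ) (ha0 : a0 = s) (hb0 : b0 = s * ((Real.sqrt Δ : ℝ) : ℂ))
    (h : (b1 - ((Real.sqrt Δ : ℝ) : ℂ) * a1).im ≠ 0) : COV2 a0 b0 a1 b1 := by
  obtain ⟨C0, hC0, hcov⟩ := pell_cover Δ hΔ
  set D : ℝ := Real.sqrt Δ with hD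
  have hΔ0 : 0 < Δ := by
    rcases Nat.eq_zero_or_pos Δ with h0 | h0
    · exact absurd ⟨0, by rw [h0]⟩ hΔ
    · exact h0
  have hDpos : 0 < D := Real.sqrt_pos.2 (by exact_mod_cast hΔ0)
  obtain ⟨σ, hσ⟩ : ∃ σ : ℝ, b1.im = σ + D * a1.im := ⟨b1.im - D * a1.im, by ring⟩
  have hσ0 : σ ≠ 0 := by
    intro h0
    apply h
    simp only [Complex.sub_im, Complex.mul_im, Complex.ofReal_re, Complex.ofReal_im, zero_mul, add_zero]
    rw [hσ, h0]
    ring
  have hS : 0 < |s| := abs_pos.2 hs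
  have hG : 0 < |σ| := abs_pos.2 hσ0
  refine ⟨by rw [ha0]; simp, by rw [hb0]; simp, ?_⟩
  have hre0 : a0.re = s := by rw [ha0]; simp
  have hre1 : b0.re = s * D := by rw [hb0]; simp
  refine ⟨C0 * |s| * |σ| / D + C0 * |σ| / (|s| * D) + 2 * (|σ| / (2 * D) + |a1.im|) / |s| + 1, by positivity, ?_⟩
  intro r k hr hk h1 h2 x y
  have hrk : 0 < r * k := mul_pos hr hk
  have p1 : 0 ≤ C0 * |s| * |σ| / D := by positivity
  have p2 : 0 ≤ C0 * |σ| / (|s| * D) := by positivity
  have p3 : 0 ≤ 2 * (|σ| / (2 * D) + |a1.im|) / |s| := by positivity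
  have q1 : C0 * |s| * |σ| / D ≤ r * k := by linarith
  have q2 : C0 * |σ| / (|s| * D) * r ≤ k := by
    refine le_trans (mul_le_mul_of_nonneg_right ?_ hr.le) h2
    linarith
  have q3 : 2 * (|σ| / (2 * D) + |a1.im|) / |s| * r ≤ k := by
    refine le_trans (mul_le_mul_of_nonneg_right ?_ hr.le) h2
    linarith
  obtain ⟨m, n, hm, hn⟩ := hcov (r / |s|) (D * k / |σ|) (by positivity) (by positivity) (by
      have e : r / |s| * (D * k / |σ|) = r * k * (D / (|s| * |σ|)) := by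
        field_simp
      rw [e]
      calc C0 = C0 * |s| * |σ| / D * (D / (|s| * |σ|)) := by field_simp
        _ ≤ r * k * (D / (|s| * |σ|)) := mul_le_mul_of_nonneg_right q1 (by positivity)) (by
      have e : C0 * (r / |s|) = C0 * |σ| / (|s| * D) * r * (D / |σ|) := by
        field_simp
      rw [e]
      calc C0 * |σ| / (|s| * D) * r * (D / |σ|) ≤ k * (D / |σ|) := mul_le_mul_of_nonneg_right q2 (by positivity)
        _ = D * k / |σ| := by ring) (x / s) (x / s - 2 * D * ((y - a1.im * (x / s)) / σ))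
  refine ⟨m, n, ?_, ?_⟩
  · rw [hre0, hre1]
    have e : x - (m * s + n * (s * D)) = s * (x / s - (m + n * D)) := by
      field_simp
    rw [e, abs_mul]
    calc |s| * |x / s - (m + n * D)| ≤ |s| * (r / |s|) := mul_le_mul_of_nonneg_left hm hS.le
      _ = r := by field_simp
  · rw [hσ]
    have e : y - (m * a1.im + n * (σ + D * a1.im)) =
        σ / (2 * D) * (x / s - (m + n * D)) - σ / (2 * D) * (x / s - 2 * D * ((y - a1.im * (x / s)) / σ) - (m - n * D))
          + a1.im * (x / s - (m + n * D)) := by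
      field_simp
      ring
    rw [e]
    have t1 : |σ / (2 * D) * (x / s - (m + n * D))| ≤ |σ| / (2 * D) * (r / |s|) := by
      rw [abs_mul, abs_div, abs_of_pos (by positivity : (0 : ℝ) < 2 * D)]
      exact mul_le_mul_of_nonneg_left hm (by positivity)
    have t2 : |σ / (2 * D) * (x / s - 2 * D * ((y - a1.im * (x / s)) / σ) - (m - n * D))| ≤ |σ| / (2 * D) * (D * k / |σ|) := by
      rw [abs_mul, abs_div, abs_of_pos (by positivity : (0 : ℝ) < 2 * D)]
      exact mul_le_mul_of_nonneg_left hn (by positivity)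
    have t3 : |a1.im * (x / s - (m + n * D))| ≤ |a1.im| * (r / |s|) := by
      rw [abs_mul]
      exact mul_le_mul_of_nonneg_left hm (abs_nonneg _)
    have u2 : |σ| / (2 * D) * (D * k / |σ|) = k / 2 := by
      field_simp
    have u1 : |σ| / (2 * D) * (r / |s|) + |a1.im| * (r / |s|) = 2 * (|σ| / (2 * D) + |a1.im|) / |s| * r / 2 := by
      field_simp
    have v1 := abs_add_le (σ / (2 * D) * (x / s - (m + n * D)) -
      σ / (2 * D) * (x / s - 2 * D * ((y - a1.im * (x / s)) / σ) - (m - n * D))) (a1.im * (x / s - (m + n * D)))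
    have v2 := abs_sub (σ / (2 * D) * (x / s - (m + n * D)))
      (σ / (2 * D) * (x / s - 2 * D * ((y - a1.im * (x / s)) / σ) - (m - n * D)))
    rw [u2] at t2
    linarith

end Pool.Agent.LT
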