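import Pool.Agent.Lib.MP_f58a57_nt.LT.DD.Defs

/-!
# MP_f58a57_nt, large transcendence degree, part D analysis (row lt-DD4): the transposed data

`finrank ker (Z - Mᵀ) = finrank ker (Z - M)`: the two matrices are transposes of each other, `Matrix.rank_transpose`, rank-nullity
(`LinearMap.finrank_range_add_finrank_ker`, `Matrix.rank = finrank (range mulVecLin)`).
-/

open Complex Matrix

noncomputable section

namespace Pool.Agent.LT

variable {c : ℕ}

theorem finrank_ker_tr {n : ℕ} (A : Matrix (Fin n) (Fin n) ℂ) :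
    Module.finrank ℂ (LinearMap.ker (Matrix.mulVecLin Aᵀ)) = Module.finrank ℂ (LinearMap.ker (Matrix.mulVecLin A)) := by
  have h1 := LinearMap.finrank_range_add_finrank_ker (Matrix.mulVecLin Aᵀ)
  have h2 := LinearMap.finrank_range_add_finrank_ker (Matrix.mulVecLin A)
  have h3 : Module.finrank ℂ (LinearMap.range (Matrix.mulVecLin Aᵀ)) = Module.finrank ℂ (LinearMap.range (Matrix.mulVecLin A)) :=
    Matrix.rank_transpose A
  omega

/-- the transposed data -/
def Dat.tr (D : Dat c) : Dat c where
  z := D.z
  im := D.im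
  M := D.Mᵀ
  d := D.d
  hd := D.hd
  dM := D.dMᵀ
  hdM := fun i j => D.hdM j i
  g := D.g
  hg := D.hg
  hMg := by rw [Matrix.transpose_transpose]; exact D.hMg.symm
  rk := by
    have h := finrank_ker_tr (Matrix.diagonal D.z - D.M.map (fun q : ℚ => (q : ℂ)))
    rw [Matrix.transpose_sub, Matrix.diagonal_transpose, ← Matrix.transpose_map] at h
    rw [h]
    exact D.rk

theorem Dat.tr_Lt (D : Dat c) : D.tr.Lt = D.L := rfl

end Pool.Agent.LT
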