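import Pool.Agent.Lib.MP_f58a57_nt.LT.DD.Defs

/-!
# MP_f58a57_nt, large transcendence degree, part D analysis (row lt-DD5): hermitian and symmetric part of a real symmetric form

All by the definitions, `RB` and `I • I • u = -u`, `R (-u) v = -R u v` (from `smul` with `t = -1`).
For the complex scalar `t = a + i b`: `t • u = (a : ℂ) • u + (b : ℂ) • (I • u)`.
-/

open Complex Matrix

noncomputable section

namespace Pool.Agent.LT

variable {V : Type} [AddCommGroup V] [Module ℂ V] {R : V → V → ℝ}

private theorem R5_II (u : V) : (I : ℂ) • (I : ℂ) • u = -u := by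
  rw [smul_smul, I_mul_I, neg_smul, one_smul]

private theorem R5_neg (h : RB R) (u v : V) : R (-u) v = -R u v := by
  have h1 := h.smul (-1) u v
  rw [Complex.ofReal_neg, Complex.ofReal_one, neg_smul, one_smul, neg_one_mul] at h1
  exact h1

private theorem R5_t (h : RB R) (t : ℂ) (u v : V) : R (t • u) v = t.re * R u v + t.im * R (I • u) v := by
  have h1 : t • u = ((t.re : ℝ) : ℂ) • u + ((t.im : ℝ) : ℂ) • ((I : ℂ) • u) := by
    rw [smul_smul, ← add_smul, Complex.re_add_im]
  rw [h1, h.add, h.smul, h.smul]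

private theorem R5_It (h : RB R) (t : ℂ) (u v : V) : R (I • (t • u)) v = t.re * R (I • u) v - t.im * R u v := by
  rw [smul_comm, R5_t h, R5_II, R5_neg h]
  ring

theorem Hf_add (h : RB R) (u u' v : V) : Hf R (u + u') v = Hf R u v + Hf R u' v := by
  unfold Hf
  rw [smul_add, h.add, h.add, h.add, h.add]
  push_cast
  ring

theorem Hf_smul (h : RB R) (t : ℂ) (u v : V) : Hf R (t • u) v = t * Hf R u v := by
  unfold Hf
  rw [R5_t h t u v, R5_t h t u (I • v), R5_It h t u v, R5_It h t u (I • v)]
  apply Complex.ext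
  · simp
    ring
  · simp
    ring

theorem Hf_conj (h : RB R) (u v : V) : (starRingEnd ℂ) (Hf R u v) = Hf R v u := by
  unfold Hf
  rw [h.symm v u, h.symm (I • v) (I • u), h.symm v (I • u), h.symm (I • v) u]
  simp only [map_div₀, map_add, map_mul, Complex.conj_ofReal, Complex.conj_I]
  rw [show (starRingEnd ℂ) (2 : ℂ) = 2 from Complex.conj_ofNat 2]
  push_cast
  ring

theorem Hf_self (h : RB R) (u : V) : Hf R u u = (((R u u + R (I • u) (I • u)) / 2 : ℝ) : ℂ) := by
  unfold Hf
  rw [h.symm (I • u) u]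
  push_cast
  ring

theorem Sf_symm (h : RB R) (u v : V) : Sf R u v = Sf R v u := by
  unfold Sf
  rw [h.symm v u, h.symm (I • v) (I • u), h.symm v (I • u), h.symm (I • v) u]
  push_cast
  ring

theorem Sf_add (h : RB R) (u u' v : V) : Sf R (u + u') v = Sf R u v + Sf R u' v := by
  unfold Sf
  rw [smul_add, h.add, h.add, h.add, h.add]
  push_cast
  ring

theorem Sf_smul (h : RB R) (t : ℂ) (u v : V) : Sf R (t • u) v = t * Sf R u v := by
  unfold Sf
  rw [R5_t h t u v, R5_t h t u (I • v), R5_It h t u v, R5_It h t u (I • v)]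
  apply Complex.ext
  · simp
    ring
  · simp
    ring

/-- the sum of the two parts -/
theorem HS_add (h : RB R) (u v : V) : Hf R u v + Sf R u v = (R u v : ℂ) - I * (R (I • u) v : ℂ) := by
  unfold Hf Sf
  push_cast
  ring

theorem Sf_quad (h : RB R) (u v : V) : Sf R (u + v) (u + v) = Sf R u u + 2 * Sf R u v + Sf R v v := by
  rw [Sf_add h, Sf_symm h u (u + v), Sf_symm h v (u + v), Sf_add h, Sf_add h, Sf_symm h v u]
  ring

end Pool.Agent.LT
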