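import Mathlib

/-!
# MP_f58a57_nt, large transcendence degree, part D analysis (row lt-DD6): Cholesky decomposition

`h` positive definite hermitian: `h = rᴴ r` with `r` lower triangular with positive diagonal, from Mathlib's `LDL` for `h.submatrix Fin.rev Fin.rev`.
-/

open Complex Matrix ComplexOrder

noncomputable section

namespace Pool.Agent.LT

private theorem chol_aux (n : ℕ) (S : Matrix (Fin n) (Fin n) ℂ) (hS : S.PosDef) :
    ∃ (L : Matrix (Fin n) (Fin n) ℂ) (d : Fin n → ℝ), (∀ i l, i < l → L i l = 0) ∧ (∀ i, L i i ≠ 0) ∧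
      (∀ i, 0 < d i) ∧ (∀ a b, ∑ i, L a i * (d i : ℂ) * star (L b i) = S a b) := by
  classical
  have hD : (LDL.diag hS).PosDef := by
    rw [LDL.diag_eq_lowerInv_conj]
    apply hS.mul_mul_conjTranspose_same
    intro v w hvw
    have := LDL.invertibleLowerInv hS
    have h1 : (v ᵥ* LDL.lowerInv hS) ᵥ* (LDL.lowerInv hS)⁻¹ = (w ᵥ* LDL.lowerInv hS) ᵥ* (LDL.lowerInv hS)⁻¹ := by
      have : v ᵥ* LDL.lowerInv hS = w ᵥ* LDL.lowerInv hS := hvw
      rw [this]
    simpa [Matrix.vecMul_vecMul] using h1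
  have hdpos : ∀ i, 0 < LDL.diagEntries hS i := by
    intro i
    have := hD.diag_pos (i := i)
    simpa [LDL.diag] using this
  have hinv := LDL.invertibleLowerInv hS
  have htri0 : (LDL.lowerInv hS).IsLowerTriangular := by
    intro i j hij
    exact LDL.lowerInv_triangular hS hij
  have htri : (LDL.lower hS).IsLowerTriangular := by
    have := blockTriangular_inv_of_blockTriangular (M := LDL.lowerInv hS) htri0
    exact this
  have hdet : (LDL.lower hS).det ≠ 0 := by
    unfold LDL.lower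
    rw [Matrix.det_nonsing_inv]
    have h2 : IsUnit (LDL.lowerInv hS).det := (Matrix.isUnit_iff_isUnit_det _).1 (isUnit_of_invertible _)
    intro h3
    rw [Ring.inverse_eq_inv, inv_eq_zero] at h3
    rw [h3] at h2
    exact not_isUnit_zero h2
  refine ⟨LDL.lower hS, fun i => (LDL.diagEntries hS i).re, ?_, ?_, ?_, ?_⟩
  · intro i l hil
    exact htri hil
  · intro i
    rw [det_of_isLowerTriangular _ htri, Finset.prod_ne_zero_iff] at hdet
    exact hdet i (Finset.mem_univ _)
  · intro i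
    exact (Complex.lt_def.1 (hdpos i)).1
  · intro a b
    have h4 : ∀ i, ((LDL.diagEntries hS i).re : ℂ) = LDL.diagEntries hS i := by
      intro i
      apply Complex.ext
      · simp
      · have := (Complex.lt_def.1 (hdpos i)).2
        simpa using this
    have h5 := congrFun (congrFun (LDL.lower_conj_diag hS) a) b
    rw [← h5]
    rw [Matrix.mul_apply]
    apply Finset.sum_congr rfl
    intro i _
    rw [h4, LDL.diag, Matrix.mul_diagonal, Matrix.conjTranspose_apply]

theorem chol (n : ℕ) (h : Matrix (Fin n) (Fin n) ℂ) (hh : h.PosDef) : ∃ r : Matrix (Fin n) (Fin n) ℂ,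
    (∀ i l, i < l → r i l = 0) ∧ (∀ i, 0 < (r i i).re ∧ (r i i).im = 0) ∧ rᴴ * r = h := by
  obtain ⟨L, d, h1, h2, h3, h4⟩ := chol_aux n (h.submatrix Fin.rev Fin.rev) (hh.submatrix Fin.rev_injective)
  refine ⟨Matrix.of fun i l => (Real.sqrt (d i.rev) : ℂ) * (L i.rev i.rev / (‖L i.rev i.rev‖ : ℂ)) * star (L l.rev i.rev), ?_, ?_, ?_⟩
  · intro i l hil
    rw [Matrix.of_apply]
    rw [h1 l.rev i.rev (Fin.rev_lt_rev.2 hil)]
    simp
  · intro i
    have hn : (‖L i.rev i.rev‖ : ℂ) ≠ 0 := by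
      have := norm_ne_zero_iff.2 (h2 i.rev)
      exact_mod_cast this
    have e1 : (Real.sqrt (d i.rev) : ℂ) * (L i.rev i.rev / (‖L i.rev i.rev‖ : ℂ)) * star (L i.rev i.rev) =
        ((Real.sqrt (d i.rev) * ‖L i.rev i.rev‖ : ℝ) : ℂ) := by
      have h5 : L i.rev i.rev * star (L i.rev i.rev) = (‖L i.rev i.rev‖ : ℂ) ^ 2 := by
        have := Complex.mul_conj' (L i.rev i.rev)
        simpa using this
      push_cast
      calc (Real.sqrt (d i.rev) : ℂ) * (L i.rev i.rev / (‖L i.rev i.rev‖ : ℂ)) * star (L i.rev i.rev)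
          = (Real.sqrt (d i.rev) : ℂ) * (L i.rev i.rev * star (L i.rev i.rev)) / (‖L i.rev i.rev‖ : ℂ) := by ring
        _ = _ := by rw [h5]; field_simp
    show 0 < ((Real.sqrt (d i.rev) : ℂ) * (L i.rev i.rev / (‖L i.rev i.rev‖ : ℂ)) * star (L i.rev i.rev)).re ∧ _
    rw [e1]
    refine ⟨?_, ?_⟩
    · rw [Complex.ofReal_re]
      exact mul_pos (Real.sqrt_pos.2 (h3 _)) (norm_pos_iff.2 (h2 _))
    · show ((Real.sqrt (d i.rev) : ℂ) * (L i.rev i.rev / (‖L i.rev i.rev‖ : ℂ)) * star (L i.rev i.rev)).im = 0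
      rw [e1]
      exact Complex.ofReal_im _
  · ext a b
    rw [Matrix.mul_apply]
    have e2 : h a b = (h.submatrix Fin.rev Fin.rev) a.rev b.rev := by simp
    rw [e2, ← h4]
    rw [← Equiv.sum_comp Fin.revPerm]
    apply Finset.sum_congr rfl
    intro i _
    rw [Matrix.conjTranspose_apply]
    simp only [Matrix.of_apply, Fin.revPerm_apply, Fin.rev_rev]
    have hn : (‖L i i‖ : ℂ) ≠ 0 := by
      have := norm_ne_zero_iff.2 (h2 i)
      exact_mod_cast this
    have h5 : L i i * star (L i i) = (‖L i i‖ : ℂ) ^ 2 := by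
      have := Complex.mul_conj' (L i i)
      simpa using this
    have h6 : (Real.sqrt (d i) : ℂ) * (Real.sqrt (d i) : ℂ) = (d i : ℂ) := by
      rw [← Complex.ofReal_mul, Real.mul_self_sqrt (h3 i).le]
    have h7 : star ((Real.sqrt (d i) : ℂ) * (L i i / (‖L i i‖ : ℂ)) * star (L a.rev i)) =
        (Real.sqrt (d i) : ℂ) * (star (L i i) / (‖L i i‖ : ℂ)) * L a.rev i := by
      simp [Complex.conj_ofReal]
    rw [h7]
    calc (Real.sqrt (d i) : ℂ) * (star (L i i) / (‖L i i‖ : ℂ)) * L a.rev i *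
          ((Real.sqrt (d i) : ℂ) * (L i i / (‖L i i‖ : ℂ)) * star (L b.rev i))
        = L a.rev i * ((Real.sqrt (d i) : ℂ) * (Real.sqrt (d i) : ℂ)) * star (L b.rev i) * (L i i * star (L i i)) / ((‖L i i‖ : ℂ) ^ 2) := by ring
      _ = _ := by rw [h5, h6]; field_simp

end Pool.Agent.LT
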