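import Pool.Agent.Lib.MP_f58a57_nt.LT.DD.Defs
import Pool.Agent.Lib.MP_f58a57_nt.LT.DD.R6

/-!
# MP_f58a57_nt, large transcendence degree, part D analysis (row lt-DD7): the normal coordinates

`X : Matrix (Fin (c+1)) (Fin N) ℂ` with rows `x i`; `X` has a right inverse `E` (rows linearly independent). `u - E X u ∈ ker P` for all `u` by `hker`, and
`H k v = 0` for `k ∈ ker P` (`hk`, and `H v k = conj (H k v)`), so `H u v = H (E X u) (E X v) = ∑_{i,j} x_i(u) conj (x_j(v)) H (e_i) (e_j)`, `e_i` = `i`-th column of `E`.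
`h j i := H e_i e_j` is hermitian and positive definite: `star a ⬝ᵥ (h *ᵥ a) = H (∑ a_i e_i) (∑ a_i e_i)`, and `P (∑ a_i e_i) = 0` iff all
`a_i = x_i (∑ a_l e_l) = 0`. `r` from `chol`, `ζ u = r *ᵥ (X *ᵥ u)`, `sec z = E *ᵥ (r⁻¹ *ᵥ z)`; `det r ≠ 0` (triangular, `Matrix.det_of_lowerTriangular`).
-/

open Complex Matrix ComplexOrder

noncomputable section

namespace Pool.Agent.LT

variable {c : ℕ}

theorem exists_zeta {P : Matrix (Fin (2 * c + 1)) (Fin (2 * c + 1)) ℂ} {x : Fin (c + 1) → Fin (2 * c + 1) → ℂ}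
    (hker : ∀ u, P *ᵥ u = 0 ↔ ∀ i, x i ⬝ᵥ u = 0) (li : LinearIndependent ℂ x) (H : VN c → VN c → ℂ)
    (hadd : ∀ u u' v, H (u + u') v = H u v + H u' v) (hsmul : ∀ (t : ℂ) u v, H (t • u) v = t * H u v)
    (hconj : ∀ u v, (starRingEnd ℂ) (H u v) = H v u) (hk : ∀ u, P *ᵥ u = 0 → ∀ v, H u v = 0)
    (hpos : ∀ u, P *ᵥ u ≠ 0 → 0 < (H u u).re) :
    ∃ (ζ : VN c →ₗ[ℂ] Vc c) (sec : Vc c →ₗ[ℂ] VN c) (r : Fin (c + 1) → Fin (c + 1) → ℂ), Zt P x H ζ sec r := by
  classical
  let X : VN c →ₗ[ℂ] Vc c := (Matrix.of x).mulVecLin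
  have hX : ∀ u i, X u i = x i ⬝ᵥ u := fun u i => rfl
  have hsurj : LinearMap.range X = ⊤ := by
    apply Submodule.eq_top_of_finrank_eq
    have h1 : (Matrix.of x).rank = Fintype.card (Fin (c + 1)) := LinearIndependent.rank_matrix (M := Matrix.of x) li
    have h2 : Module.finrank ℂ (LinearMap.range X) = (Matrix.of x).rank := rfl
    rw [h2, h1]
    simp
  obtain ⟨s0, hs0⟩ := X.exists_rightInverse_of_surjective hsurj
  have hs0' : ∀ z, X (s0 z) = z := fun z => by
    have := congrArg (fun f => f z) hs0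
    simpa using this
  -- `H` only depends on `X`
  have hH1 : ∀ u v, H u v = H (s0 (X u)) v := by
    intro u v
    have hk0 : P *ᵥ (u - s0 (X u)) = 0 := by
      rw [hker]
      intro i
      have h1 : x i ⬝ᵥ (u - s0 (X u)) = X u i - X (s0 (X u)) i := by
        rw [hX, hX, dotProduct_sub]
      rw [h1, hs0', sub_self]
    have h2 : H u v = H (u - s0 (X u)) v + H (s0 (X u)) v := by
      rw [← hadd, sub_add_cancel]
    rw [h2, hk _ hk0, zero_add]
  have hH : ∀ u v, H u v = H (s0 (X u)) (s0 (X v)) := by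
    intro u v
    rw [hH1 u v, ← hconj v (s0 (X u)), hH1 v (s0 (X u)), hconj]
  -- the Gram matrix
  let e : Fin (c + 1) → VN c := fun i => s0 (Pi.single i 1)
  let h : Matrix (Fin (c + 1)) (Fin (c + 1)) ℂ := Matrix.of fun j i => H (e i) (e j)
  have hsum : ∀ (ι : Type) (s : Finset ι) (f : ι → VN c) (v : VN c), H (∑ i ∈ s, f i) v = ∑ i ∈ s, H (f i) v := by
    intro ι s f v
    induction s using Finset.induction_on with
    | empty =>
      have := hsmul 0 0 v
      simpa using this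
    | insert a s ha ih => rw [Finset.sum_insert ha, Finset.sum_insert ha, hadd, ih]
  have hs0sum : ∀ z : Vc c, s0 z = ∑ i, z i • e i := by
    intro z
    have h1 : z = ∑ i, z i • (Pi.single i (1 : ℂ) : Vc c) := by
      funext j
      simp [Finset.sum_apply, Pi.single_apply]
    conv_lhs => rw [h1]
    rw [map_sum]
    refine Finset.sum_congr rfl fun i _ => ?_
    rw [map_smul]
  have hleft : ∀ (z : Vc c) (v : VN c), H (s0 z) v = ∑ i, z i * H (e i) v := by
    intro z v
    rw [hs0sum, hsum]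
    refine Finset.sum_congr rfl fun i _ => ?_
    rw [hsmul]
  have hright : ∀ (w : Vc c) (u : VN c), H u (s0 w) = ∑ j, (starRingEnd ℂ) (w j) * H u (e j) := by
    intro w u
    rw [← hconj (s0 w) u, hleft, map_sum]
    refine Finset.sum_congr rfl fun i _ => ?_
    rw [map_mul, hconj]
  have hform : ∀ z w : Vc c, H (s0 z) (s0 w) = star w ⬝ᵥ (h *ᵥ z) := by
    intro z w
    rw [hright]
    unfold dotProduct
    refine Finset.sum_congr rfl fun j _ => ?_
    rw [hleft]
    have h1 : (h *ᵥ z) j = ∑ i, z i * H (e i) (e j) := by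
      unfold Matrix.mulVec dotProduct
      refine Finset.sum_congr rfl fun i _ => ?_
      rw [mul_comm]
      rfl
    rw [h1]
    rfl
  have hpd : h.PosDef := by
    rw [Matrix.posDef_iff_dotProduct_mulVec]
    refine ⟨?_, ?_⟩
    · ext i j
      rw [Matrix.conjTranspose_apply]
      exact hconj (e i) (e j)
    · intro z hz
      rw [← hform]
      have h1 : P *ᵥ (s0 z) ≠ 0 := by
        intro h0
        apply hz
        rw [hker] at h0
        funext i
        have h2 := h0 i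
        rw [← hX, hs0'] at h2
        exact h2
      have h2 := hpos _ h1
      have h3 : (H (s0 z) (s0 z)).im = 0 := by
        have := hconj (s0 z) (s0 z)
        exact Complex.conj_eq_iff_im.1 this
      rw [Complex.lt_def]
      exact ⟨h2, h3.symm⟩
  obtain ⟨r, hr1, hr2, hr3⟩ := chol (c + 1) h hpd
  have hdet : IsUnit r.det := by
    have h1 : IsUnit h.det := (Matrix.isUnit_iff_isUnit_det _).1 hpd.isUnit
    rw [← hr3, Matrix.det_mul] at h1
    exact (IsUnit.mul_iff.1 h1).2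
  refine ⟨r.mulVecLin ∘ₗ X, s0 ∘ₗ r⁻¹.mulVecLin, r, ?_, ?_, ?_, ?_, hr1, hr2⟩
  · intro z
    have h1 : (r.mulVecLin ∘ₗ X) ((s0 ∘ₗ r⁻¹.mulVecLin) z) = r *ᵥ (X (s0 (r⁻¹ *ᵥ z))) := rfl
    rw [h1, hs0', Matrix.mulVec_mulVec, Matrix.mul_nonsing_inv _ hdet, Matrix.one_mulVec]
  · intro u
    have h1 : (r.mulVecLin ∘ₗ X) u = r *ᵥ (X u) := rfl
    rw [h1, hker]
    constructor
    · intro h2 i
      have h3 : X u = 0 := by
        have h4 : r⁻¹ *ᵥ (r *ᵥ (X u)) = 0 := by rw [h2, Matrix.mulVec_zero]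
        rwa [Matrix.mulVec_mulVec, Matrix.nonsing_inv_mul _ hdet, Matrix.one_mulVec] at h4
      rw [← hX, h3]
      rfl
    · intro h2
      have h3 : X u = 0 := by
        funext i
        rw [hX]
        exact h2 i
      rw [h3, Matrix.mulVec_zero]
  · intro u v
    have h1 : herm ((r.mulVecLin ∘ₗ X) u) ((r.mulVecLin ∘ₗ X) v) = star (r *ᵥ (X v)) ⬝ᵥ (r *ᵥ (X u)) := by
      unfold herm dotProduct
      refine Finset.sum_congr rfl fun i _ => ?_
      rw [mul_comm]
      rfl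
    rw [h1, hH, hform, ← hr3, Matrix.star_mulVec, ← Matrix.mulVec_mulVec, Matrix.dotProduct_mulVec]
  · intro i u
    rfl

end Pool.Agent.LT
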