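import Pool.Agent.Lib.MP_f58a57_nt.LT.DD.R8

/-!
# MP_f58a57_nt, large transcendence degree, part D analysis (row lt-DD9): the real form is positive

`2 |Y (v0_j).re b_j| ≤ (1/2) (z_j).im b_j² + 2 Y² ‖v0_j‖² / (z_j).im` (AM-GM), so
`R u u ≥ (1/2) ∑ (z_j).im (b u j)² + (Y u)² ≥ 0`, and `> 0` unless `b u = 0`, `Y u = 0`, i.e. `P u = 0` (`Dec.ker_of`).
-/

open Complex Matrix

noncomputable section

namespace Pool.Agent.LT

variable {c : ℕ} {D : Dat c} {b : VN c →ₗ[ℝ] (Fin (2 * c + 1) → ℝ)} {Y : VN c →ₗ[ℝ] ℝ}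

private theorem R9_term {t β r n y : ℝ} (ht : 0 < t) (hr : r ^ 2 ≤ n ^ 2) :
    0 ≤ (1 / 2) * (t * β ^ 2) + 2 * y * (r * β) + 2 * (n ^ 2 / t) * y ^ 2 := by
  have h : (1 / 2) * (t * β ^ 2) + 2 * y * (r * β) + 2 * (n ^ 2 / t) * y ^ 2 =
      (1 / (2 * t)) * ((t * β + 2 * y * r) ^ 2 + 4 * y ^ 2 * (n ^ 2 - r ^ 2)) := by
    field_simp
    ring
  rw [h]
  apply mul_nonneg
  · positivity
  · apply add_nonneg (sq_nonneg _)
    apply mul_nonneg (by positivity)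
    linarith

theorem Rf_lower (h : Dec D D.Lt b Y) (u : VN c) : (1 / 2) * ∑ j, (D.z j).im * (b u j) ^ 2 + (Y u) ^ 2 ≤ Rf D b Y u u := by
  have key : Rf D b Y u u - ((1 / 2) * ∑ j, (D.z j).im * (b u j) ^ 2 + (Y u) ^ 2) =
      ∑ j, ((1 / 2) * ((D.z j).im * (b u j) ^ 2) + 2 * Y u * ((D.v0 j).re * b u j) +
        2 * (‖D.v0 j‖ ^ 2 / (D.z j).im) * (Y u) ^ 2) := by
    rw [Finset.sum_add_distrib, Finset.sum_add_distrib, ← Finset.mul_sum, ← Finset.mul_sum, ← Finset.sum_mul,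
      ← Finset.mul_sum]
    unfold Rf gam0
    have h1 : ∑ j, (D.z j).im * (b u j * b u j) = ∑ j, (D.z j).im * (b u j) ^ 2 := by
      apply Finset.sum_congr rfl
      intro j _
      ring
    rw [h1]
    ring
  have h2 : 0 ≤ ∑ j, ((1 / 2) * ((D.z j).im * (b u j) ^ 2) + 2 * Y u * ((D.v0 j).re * b u j) +
        2 * (‖D.v0 j‖ ^ 2 / (D.z j).im) * (Y u) ^ 2) := by
    apply Finset.sum_nonneg
    intro j _
    apply R9_term (D.im j)
    rw [← sq_abs (D.v0 j).re]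
    exact pow_le_pow_left₀ (abs_nonneg _) (Complex.abs_re_le_norm _) 2
  linarith

theorem Rf_nonneg (h : Dec D D.Lt b Y) (u : VN c) : 0 ≤ Rf D b Y u u := by
  refine le_trans ?_ (Rf_lower h u)
  apply add_nonneg _ (sq_nonneg _)
  apply mul_nonneg (by norm_num)
  apply Finset.sum_nonneg
  intro j _
  exact mul_nonneg (D.im j).le (sq_nonneg _)

theorem Rf_pos (h : Dec D D.Lt b Y) {u : VN c} (hu : D.Lt *ᵥ u ≠ 0) : 0 < Rf D b Y u u := by
  by_contra hcon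
  apply hu
  have h0 : Rf D b Y u u ≤ 0 := not_lt.mp hcon
  have h1 := Rf_lower h u
  have h2 : 0 ≤ ∑ j, (D.z j).im * (b u j) ^ 2 := by
    apply Finset.sum_nonneg
    intro j _
    exact mul_nonneg (D.im j).le (sq_nonneg _)
  have h3 : ∑ j, (D.z j).im * (b u j) ^ 2 = 0 := by
    nlinarith [sq_nonneg (Y u)]
  have h4 : Y u = 0 := by
    have : (Y u) ^ 2 = 0 := by nlinarith [sq_nonneg (Y u)]
    exact pow_eq_zero_iff two_ne_zero |>.1 this
  apply h.ker_of _ h4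
  funext j
  have h5 := (Finset.sum_eq_zero_iff_of_nonneg (fun j _ => mul_nonneg (D.im j).le (sq_nonneg (b u j)))).1 h3 j (Finset.mem_univ j)
  rcases mul_eq_zero.1 h5 with h6 | h6
  · exact absurd h6 (D.im j).ne'
  · exact pow_eq_zero_iff two_ne_zero |>.1 h6

/-- for the hermitian part (uses `Hf_self`, restated as the definition) -/
theorem Hf_Rf_pos (h : Dec D D.Lt b Y) {u : VN c} (hu : D.Lt *ᵥ u ≠ 0) : 0 < (Hf (Rf D b Y) u u).re := by
  have h1 : (Hf (Rf D b Y) u u).re = (Rf D b Y u u + Rf D b Y (I • u) (I • u)) / 2 := by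
    have h2 : Hf (Rf D b Y) u u = (((Rf D b Y u u + Rf D b Y (I • u) (I • u)) / 2 : ℝ) : ℂ) +
        I * (((Rf D b Y u (I • u) - Rf D b Y (I • u) u) / 2 : ℝ) : ℂ) := by
      unfold Hf
      push_cast
      ring
    rw [h2, Complex.add_re, Complex.ofReal_re, Complex.I_mul_re, Complex.ofReal_im]
    ring
  rw [h1]
  have h2 := Rf_pos h hu
  have h3 := Rf_nonneg h (I • u)
  linarith

end Pool.Agent.LT
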